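import Mathlib

/-!
# Labelings of disjoint unions of cycles: level crossings

`σ` is the map `i ↦ i + 3` of the cycles. For every level `x` we count the `v` with
`g v < x ≤ g (σ v)`.
-/

set_option autoImplicit false

namespace Pool.Agent.K1H13.CY

open Finset

set_option linter.unusedSectionVars false

variable {V : Type} [Fintype V] [DecidableEq V]

theorem ai (f : Equiv.Perm V) (x : V) : f (f⁻¹ x) = x := f.apply_symm_apply x

theorem ia (f : Equiv.Perm V) (x : V) : f⁻¹ (f x) = x := f.symm_apply_apply x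

/-- upcrossings of the level `x` -/
def Oc (σ : Equiv.Perm V) (g : V → ℕ) (x : ℕ) : ℕ := #{v | g v < x ∧ x ≤ g (σ v)}

theorem sum_Oc (σ : Equiv.Perm V) (g : V → ℕ) (n : ℕ) (hn : ∀ v, g v < n) :
    ∑ x ∈ range (n + 1), Oc σ g x = ∑ v, (g (σ v) - g v) := by
  unfold Oc
  simp only [card_filter]
  rw [sum_comm]
  refine sum_congr rfl fun v _ => ?_
  rw [← card_filter, ← Nat.card_Ioc]
  congr 1
  ext x
  simp only [mem_filter, mem_range, mem_Ioc]
  have := hn (σ v)
  omega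

theorem Oc_zero (σ : Equiv.Perm V) (g : V → ℕ) : Oc σ g 0 = 0 := by
  unfold Oc
  rw [card_eq_zero, filter_eq_empty_iff]
  intro v _ h
  omega

theorem Oc_top (σ : Equiv.Perm V) (g : V → ℕ) (n : ℕ) (hn : ∀ v, g v < n) : Oc σ g n = 0 := by
  unfold Oc
  rw [card_eq_zero, filter_eq_empty_iff]
  intro v _ h
  have := hn (σ v)
  omega

/-- one step -/
theorem Oc_succ (σ : Equiv.Perm V) (g : V → ℕ) (hg : Function.Injective g) (v0 : V) :
    Oc σ g (g v0 + 1) + (if g (σ⁻¹ v0) < g v0 then 1 else 0) =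
      Oc σ g (g v0) + (if g v0 < g (σ v0) then 1 else 0) := by
  unfold Oc
  simp only [card_filter]
  have h1 : (if g (σ⁻¹ v0) < g v0 then 1 else 0) =
      ∑ v, (if v = σ⁻¹ v0 then (if g v < g v0 then 1 else 0) else 0) := by
    rw [Finset.sum_ite_eq' univ (σ⁻¹ v0) (fun v => if g v < g v0 then 1 else 0)]
    simp
  have h2 : (if g v0 < g (σ v0) then 1 else 0) =
      ∑ v, (if v = v0 then (if g v0 < g (σ v) then 1 else 0) else 0) := by
    rw [Finset.sum_ite_eq' univ v0 (fun v => if g v0 < g (σ v) then 1 else 0)]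
    simp
  rw [h1, h2, ← sum_add_distrib, ← sum_add_distrib]
  refine sum_congr rfl fun v _ => ?_
  have e1 : g v = g v0 ↔ v = v0 := hg.eq_iff
  have e2 : g (σ v) = g v0 ↔ v = σ⁻¹ v0 := by
    rw [hg.eq_iff]
    constructor
    · intro h; rw [← h]; simp
    · intro h; rw [h]; simp
  by_cases c1 : v = v0 <;> by_cases c2 : v = σ⁻¹ v0
  · rw [if_pos c1, if_pos c2]
    have a1 := e1.2 c1
    have a2 := e2.2 c2
    split_ifs <;> omega
  · rw [if_pos c1, if_neg c2]
    have a1 := e1.2 c1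
    have a2 : g (σ v) ≠ g v0 := fun h => c2 (e2.1 h)
    split_ifs <;> omega
  · rw [if_neg c1, if_pos c2]
    have a1 : g v ≠ g v0 := fun h => c1 (e1.1 h)
    have a2 := e2.2 c2
    split_ifs <;> omega
  · rw [if_neg c1, if_neg c2]
    have a1 : g v ≠ g v0 := fun h => c1 (e1.1 h)
    have a2 : g (σ v) ≠ g v0 := fun h => c2 (e2.1 h)
    split_ifs <;> omega

/-- peaks and valleys -/
def Ex (σ : Equiv.Perm V) (g : V → ℕ) (v : V) : Prop :=
  (g (σ⁻¹ v) < g v ∧ g (σ v) < g v) ∨ (g v < g (σ⁻¹ v) ∧ g v < g (σ v))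

instance (σ : Equiv.Perm V) (g : V → ℕ) (v : V) : Decidable (Ex σ g v) := by
  unfold Ex; infer_instance

theorem contr (σ : Equiv.Perm V) (g : V → ℕ) (hg : Function.Injective g) (hσ : ∀ v, σ v ≠ v)
    (v : V) : 3 ≤ Oc σ g (g v) + Oc σ g (g v + 1) + (if Ex σ g v then 0 else 1) +
      2 * (if Oc σ g (g v) = 0 then 1 else 0) + 2 * (if Oc σ g (g v + 1) = 0 then 1 else 0) := by
  have h := Oc_succ σ g hg v
  have h1 : g (σ v) ≠ g v := fun h => hσ v (hg h)
  have h2 : g (σ⁻¹ v) ≠ g v := by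
    intro h
    have := hg h
    apply hσ (σ⁻¹ v)
    rw [ai]
    exact this.symm
  have hE : Ex σ g v ↔ (g (σ⁻¹ v) < g v ∧ g (σ v) < g v) ∨ (g v < g (σ⁻¹ v) ∧ g v < g (σ v)) :=
    Iff.rfl
  by_cases c1 : g (σ⁻¹ v) < g v <;> by_cases c2 : g v < g (σ v)
  · have : ¬ Ex σ g v := by rw [hE]; omega
    rw [if_neg this]
    rw [if_pos c1, if_pos c2] at h
    split_ifs <;> omega
  · have : Ex σ g v := by rw [hE]; omega
    rw [if_pos this]
    rw [if_pos c1, if_neg c2] at h
    split_ifs <;> omega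
  · have : Ex σ g v := by rw [hE]; omega
    rw [if_pos this]
    rw [if_neg c1, if_pos c2] at h
    split_ifs <;> omega
  · have : ¬ Ex σ g v := by rw [hE]; omega
    rw [if_neg this]
    rw [if_neg c1, if_neg c2] at h
    split_ifs <;> omega

/-- a level without crossings is a union of cycles -/
theorem inv_of_zero (σ : Equiv.Perm V) (g : V → ℕ) (x : ℕ) (h : Oc σ g x = 0) (v w : V)
    (hs : σ.SameCycle v w) (hv : g v < x) : g w < x := by
  have h1 : ∀ v, g v < x → g (σ v) < x := by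
    intro v hv
    unfold Oc at h
    rw [card_eq_zero, filter_eq_empty_iff] at h
    have := h (mem_univ v)
    omega
  obtain ⟨i, hi⟩ : ∃ i : ℕ, (σ ^ i) v = w := by
    obtain ⟨i, _, hi⟩ := hs.exists_pow_eq'
    exact ⟨i, hi⟩
  rw [← hi]
  clear hi
  induction i with
  | zero => simpa using hv
  | succ i ih =>
    rw [pow_succ', Equiv.Perm.mul_apply]
    exact h1 _ ih

theorem zero_card1 (σ : Equiv.Perm V) (g : V → ℕ) (r : ℕ → V) (n : ℕ)
    (hr : ∀ x < n, g (r x) = x) {Q : Type} [Fintype Q] (c : V → Q)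
    (hc : ∀ v w, c v = c w → σ.SameCycle v w) :
    #{x ∈ range n | Oc σ g (x + 1) = 0} ≤ Fintype.card Q := by
  classical
  rw [← card_univ]
  refine card_le_card_of_injOn (fun x => c (r x)) (fun x _ => by simp) ?_
  have key : ∀ x y : ℕ, x < n → y < n → Oc σ g (x + 1) = 0 → c (r x) = c (r y) → y ≤ x := by
    intro x y hx hy h0 h
    have := inv_of_zero σ g (x + 1) h0 (r x) (r y) (hc _ _ h) (by rw [hr x hx]; omega)
    rw [hr y hy] at this
    omega
  intro x hx y hy h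
  simp only [coe_filter, mem_range, Set.mem_ofPred_eq] at hx hy
  exact le_antisymm (key y x hy.1 hx.1 hy.2 h.symm) (key x y hx.1 hy.1 hx.2 h)

theorem zero_card0 (σ : Equiv.Perm V) (g : V → ℕ) (r : ℕ → V) (n : ℕ)
    (hr : ∀ x < n, g (r x) = x) {Q : Type} [Fintype Q] (c : V → Q)
    (hc : ∀ v w, c v = c w → σ.SameCycle v w) :
    #{x ∈ range n | Oc σ g x = 0} ≤ Fintype.card Q := by
  classical
  rw [← card_univ]
  refine card_le_card_of_injOn (fun x => c (r x)) (fun x _ => by simp) ?_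
  have key : ∀ x y : ℕ, x < n → y < n → Oc σ g y = 0 → c (r x) = c (r y) → y ≤ x := by
    intro x y hx hy h0 h
    by_contra hlt
    push Not at hlt
    have := inv_of_zero σ g y h0 (r x) (r y) (hc _ _ h) (by rw [hr x hx]; omega)
    rw [hr y hy] at this
    omega
  intro x hx y hy h
  simp only [coe_filter, mem_range, Set.mem_ofPred_eq] at hx hy
  exact le_antisymm (key y x hy.1 hx.1 hx.2 h.symm) (key x y hx.1 hy.1 hy.2 h)

/-- the two inequalities -/
theorem levels (σ : Equiv.Perm V) (g : V → ℕ) (n : ℕ) (hn : Fintype.card V = n)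
    (hg : Function.Injective g) (hlt : ∀ v, g v < n) (hσ : ∀ v, σ v ≠ v) {Q : Type} [Fintype Q]
    (c : V → Q) (hc : ∀ v w, c v = c w → σ.SameCycle v w) :
    n ≤ (∑ v, (g (σ v) - g v)) + Fintype.card Q ∧
    3 * n ≤ 2 * (∑ v, (g (σ v) - g v)) + #{v | ¬ Ex σ g v} + 4 * Fintype.card Q := by
  classical
  rcases Nat.eq_zero_or_pos n with h0 | hpos
  · subst h0; simp
  -- the inverse of `g`
  have hbij : Function.Bijective (fun v => (⟨g v, hlt v⟩ : Fin n)) := by
    rw [Fintype.bijective_iff_injective_and_card]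
    refine ⟨fun v w h => hg (by simpa using h), by simp [hn]⟩
  obtain ⟨v00, -⟩ := hbij.2 ⟨0, hpos⟩
  have hinv : ∀ x : ℕ, ∃ v, x < n → g v = x := by
    intro x
    by_cases hx : x < n
    · obtain ⟨v, hv⟩ := hbij.2 ⟨x, hx⟩
      exact ⟨v, fun _ => by simpa using congrArg Fin.val hv⟩
    · exact ⟨v00, fun h => absurd h hx⟩
  choose r hr using hinv
  set S := ∑ v, (g (σ v) - g v) with hS
  have hS1 : ∑ x ∈ range (n + 1), Oc σ g x = S := sum_Oc σ g n hlt
  have hSa : ∑ x ∈ range n, Oc σ g x = S := by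
    rw [sum_range_succ, Oc_top σ g n hlt, add_zero] at hS1
    exact hS1
  have hSb : ∑ x ∈ range n, Oc σ g (x + 1) = S := by
    rw [sum_range_succ', Oc_zero σ g, add_zero] at hS1
    exact hS1
  have hz0 := zero_card0 σ g r n (fun x hx => hr x hx) c hc
  have hz1 := zero_card1 σ g r n (fun x hx => hr x hx) c hc
  constructor
  · have h1 : ∀ x ∈ range n, 1 ≤ Oc σ g (x + 1) + (if Oc σ g (x + 1) = 0 then 1 else 0) := by
      intro x _
      split_ifs <;> omega
    have h2 := sum_le_sum h1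
    rw [sum_add_distrib, hSb, ← card_filter] at h2
    simp only [sum_const, card_range, smul_eq_mul, mul_one] at h2
    omega
  · have himg : ∀ F : ℕ → ℕ, ∑ x ∈ range n, F x = ∑ v, F (g v) := by
      intro F
      symm
      refine sum_bij (fun v _ => g v) (fun v _ => mem_range.2 (hlt v)) (fun v _ w _ h => hg h)
        (fun x hx => ⟨r x, mem_univ _, hr x (mem_range.1 hx)⟩) (fun v _ => rfl)
    have h2 := sum_le_sum (fun v (_ : v ∈ (univ : Finset V)) => contr σ g hg hσ v)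
    simp only [sum_add_distrib, ← mul_sum] at h2
    rw [← himg (fun x => Oc σ g x), ← himg (fun x => Oc σ g (x + 1)),
      ← himg (fun x => if Oc σ g x = 0 then 1 else 0),
      ← himg (fun x => if Oc σ g (x + 1) = 0 then 1 else 0), hSa, hSb, ← card_filter,
      ← card_filter] at h2
    have h3 : ∑ v, (if Ex σ g v then 0 else 1) = #{v | ¬ Ex σ g v} := by
      rw [card_filter]
      exact sum_congr rfl fun v _ => by split_ifs <;> rfl
    rw [h3] at h2
    simp only [sum_const, card_univ, hn, smul_eq_mul] at h2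
    omega

/-- the edges between two positive values -/
theorem nonEx_card (τ : Equiv.Perm V) (g u : V → ℕ) (hg : Function.Injective g)
    (h3 : ∀ v, τ (τ (τ v)) ≠ v) (hu : ∀ v, g (τ (τ (τ v))) + u (τ (τ v)) = g v + u (τ v)) :
    #{v | ¬ Ex (τ * τ * τ) g v} ≤ 4 * #{v | 0 < u v ∧ 0 < u (τ v)} := by
  classical
  set Bd : Finset V := {v | 0 < u v ∧ 0 < u (τ v)} with hBd
  have hne : ∀ v, u v ≠ u (τ v) := by
    intro v h
    have h1 := hu (τ⁻¹ v)
    rw [ai] at h1
    have h2 : g (τ (τ v)) = g (τ⁻¹ v) := by omega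
    apply h3 (τ⁻¹ v)
    rw [ai]
    exact hg h2
  have hsub : (univ.filter fun v => ¬ Ex (τ * τ * τ) g v) ⊆
      Bd.image τ ∪ Bd ∪ Bd.image (τ⁻¹ : Equiv.Perm V) ∪ Bd.image (fun v => τ (τ v)) := by
    intro w hw
    rw [mem_filter] at hw
    by_contra hno
    simp only [mem_union, mem_image, not_or, not_exists, not_and] at hno
    obtain ⟨⟨⟨n1, n2⟩, n3⟩, n4⟩ := hno
    -- the four edges are good
    have g1 : ¬ (0 < u (τ⁻¹ w) ∧ 0 < u w) := by
      intro h
      refine n1 (τ⁻¹ w) ?_ (ai τ w)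
      rw [hBd, mem_filter, ai]
      exact ⟨mem_univ _, h⟩
    have g2 : ¬ (0 < u w ∧ 0 < u (τ w)) := by
      intro h
      apply n2
      rw [hBd, mem_filter]
      exact ⟨mem_univ _, h⟩
    have g3 : ¬ (0 < u (τ w) ∧ 0 < u (τ (τ w))) := by
      intro h
      refine n3 (τ w) ?_ (ia τ w)
      rw [hBd, mem_filter]
      exact ⟨mem_univ _, h⟩
    have g4 : ¬ (0 < u (τ⁻¹ (τ⁻¹ w)) ∧ 0 < u (τ⁻¹ w)) := by
      intro h
      refine n4 (τ⁻¹ (τ⁻¹ w)) ?_ (by rw [ai, ai])
      rw [hBd, mem_filter, ai]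
      exact ⟨mem_univ _, h⟩
    have d1 := hne (τ⁻¹ (τ⁻¹ w))
    have d2 := hne (τ⁻¹ w)
    have d3 := hne w
    have d4 := hne (τ w)
    rw [ai] at d1 d2
    have e1 := hu (τ⁻¹ (τ⁻¹ (τ⁻¹ w)))
    simp only [ai] at e1
    have e2 := hu w
    apply hw.2
    have hi : (τ * τ * τ)⁻¹ w = τ⁻¹ (τ⁻¹ (τ⁻¹ w)) := by
      rw [Equiv.Perm.inv_eq_iff_eq]
      change w = τ (τ (τ (τ⁻¹ (τ⁻¹ (τ⁻¹ w)))))
      rw [ai, ai, ai]
    unfold Ex
    rw [hi]
    have hj : (τ * τ * τ) w = τ (τ (τ w)) := rfl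
    rw [hj]
    omega
  have hcard := card_le_card hsub
  have c1 : (Bd.image τ).card ≤ Bd.card := card_image_le
  have c2 : (Bd.image (τ⁻¹ : Equiv.Perm V)).card ≤ Bd.card := card_image_le
  have c3 : (Bd.image (fun v => τ (τ v))).card ≤ Bd.card := card_image_le
  have c4 := card_union_le (Bd.image τ ∪ Bd ∪ Bd.image (τ⁻¹ : Equiv.Perm V)) (Bd.image (fun v => τ (τ v)))
  have c5 := card_union_le (Bd.image τ ∪ Bd) (Bd.image (τ⁻¹ : Equiv.Perm V))
  have c6 := card_union_le (Bd.image τ) Bd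
  omega

/-- the main inequality -/
theorem main (τ : Equiv.Perm V) (g : V → ℕ) (n : ℕ) (hn : Fintype.card V = n)
    (hg : Function.Injective g) (hlt : ∀ v, g v < n) (h3 : ∀ v, τ (τ (τ v)) ≠ v) {Q : Type}
    [Fintype Q] (c : V → Q) (hc : ∀ v w, c v = c w → (τ * τ * τ).SameCycle v w) (T : ℕ)
    (hT : ∀ v, g (τ⁻¹ v) + g v + g (τ v) ≤ T) :
    n + 3 * (∑ v, g v) ≤ n * T + Fintype.card Q ∧
    5 * n + 12 * (∑ v, g v) ≤ 4 * (n * T) + 6 * Fintype.card Q := by
  classical
  set u : V → ℕ := fun v => T - (g (τ⁻¹ v) + g v + g (τ v)) with hu0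
  have hu1 : ∀ v, u v + (g (τ⁻¹ v) + g v + g (τ v)) = T := fun v => Nat.sub_add_cancel (hT v)
  have hu : ∀ v, g (τ (τ (τ v))) + u (τ (τ v)) = g v + u (τ v) := by
    intro v
    have e1 := hu1 (τ v)
    have e2 := hu1 (τ (τ v))
    simp only [ia] at e1 e2
    omega
  obtain ⟨l1, l2⟩ := levels (τ * τ * τ) g n hn hg hlt h3 c hc
  have l3 := nonEx_card τ g u hg h3 hu
  -- the sum of the `u`
  have sN : (∑ v, u v) + 3 * (∑ v, g v) = n * T := by
    have h1 : ∑ v, (u v + (g (τ⁻¹ v) + g v + g (τ v))) = ∑ _v : V, T :=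
      sum_congr rfl fun v _ => hu1 v
    simp only [sum_add_distrib, sum_const, card_univ, hn, smul_eq_mul] at h1
    rw [Equiv.sum_comp τ g, Equiv.sum_comp τ⁻¹ g] at h1
    omega
  set B := ∑ v, min (u v) (u (τ v)) with hB
  have sS : (∑ v, (g ((τ * τ * τ) v) - g v)) + B = ∑ v, u v := by
    have h1 : ∑ v, (g ((τ * τ * τ) v) - g v) = ∑ v, (u (τ v) - u (τ (τ v))) := by
      refine sum_congr rfl fun v _ => ?_
      have := hu v
      have hj : (τ * τ * τ) v = τ (τ (τ v)) := rfl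
      rw [hj]
      omega
    have h2 : ∑ v, (u (τ v) - u (τ (τ v))) = ∑ v, (u v - u (τ v)) :=
      Equiv.sum_comp τ (fun v => u v - u (τ v))
    rw [h1, h2, hB, ← sum_add_distrib]
    exact sum_congr rfl fun v _ => by omega
  have hb : #{v | 0 < u v ∧ 0 < u (τ v)} ≤ B := by
    rw [card_filter, hB]
    refine sum_le_sum fun v _ => ?_
    split_ifs with h
    · exact le_min h.1 h.2
    · exact Nat.zero_le _
  omega

end Pool.Agent.K1H13.CY
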