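import Pool.Agent.K1H13.CY.Core

/-!
# Labelings of disjoint unions of cycles: the graphs
-/

set_option autoImplicit false
set_option linter.unusedSectionVars false

namespace Pool.Agent.K1H13.CY

open Finset

section perm

variable {V : Type} [Fintype V] [DecidableEq V]

theorem sum_g (g : V → ℕ) (n : ℕ) (hn : Fintype.card V = n) (hg : Function.Injective g)
    (hlt : ∀ v, g v < n) : 2 * ∑ v, g v = n * (n - 1) := by
  have h1 : ∑ v, g v = ∑ x ∈ range n, x := by
    have h2 : (univ : Finset V).image g = range n := by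
      apply eq_of_subset_of_card_le
      · intro x hx
        obtain ⟨v, _, rfl⟩ := mem_image.1 hx
        exact mem_range.2 (hlt v)
      · rw [card_image_of_injective _ hg, card_univ, card_range, hn]
    rw [← h2, sum_image (fun a _ b _ h => hg h)]
  rw [h1, mul_comm, sum_range_id_mul_two]

theorem big (τ : Equiv.Perm V) (f : V → ℕ) (n : ℕ) (hn : Fintype.card V = n)
    (hf : Function.Injective f) (h1 : ∀ v, 1 ≤ f v) (h2 : ∀ v, f v ≤ n)
    (h3 : ∀ v, τ (τ (τ v)) ≠ v) {Q : Type} [Fintype Q] (c : V → Q)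
    (hc : ∀ v w, c v = c w → (τ * τ * τ).SameCycle v w) :
    (Odd n → 6 * Fintype.card Q < n →
      ∃ v, 3 * (n + 1) + 4 ≤ 2 * (f (τ⁻¹ v) + f v + f (τ v))) ∧
    (Even n → 2 * Fintype.card Q < n →
      ∃ v, 3 * (n + 1) + 3 ≤ 2 * (f (τ⁻¹ v) + f v + f (τ v))) := by
  set g : V → ℕ := fun v => f v - 1 with hg0
  have hgf : ∀ v, g v + 1 = f v := fun v => Nat.sub_add_cancel (h1 v)
  have hg : Function.Injective g := by
    intro v w h
    apply hf
    rw [← hgf, ← hgf, h]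
  have hlt : ∀ v, g v < n := by
    intro v
    have := hgf v
    have := h2 v
    omega
  have hsum := sum_g g n hn hg hlt
  constructor
  · rintro ⟨m, hm⟩ hq
    by_contra hno
    push Not at hno
    have hT : ∀ v, g (τ⁻¹ v) + g v + g (τ v) ≤ 3 * m + 1 := by
      intro v
      have := hno v
      have := hgf v
      have := hgf (τ v)
      have := hgf (τ⁻¹ v)
      omega
    have hm' := (main τ g n hn hg hlt h3 c hc (3 * m + 1) hT).2
    have e1 : n * (3 * m + 1) = 3 * (m * n) + n := by ring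
    have e2 : n * (n - 1) = 2 * (m * n) := by
      have : n - 1 = 2 * m := by omega
      rw [this]; ring
    rw [e2] at hsum
    rw [e1] at hm'
    omega
  · rintro ⟨m, hm⟩ hq
    by_contra hno
    push Not at hno
    have hm0 : 1 ≤ m := by omega
    have hT : ∀ v, g (τ⁻¹ v) + g v + g (τ v) ≤ 3 * m - 1 := by
      intro v
      have := hno v
      have := hgf v
      have := hgf (τ v)
      have := hgf (τ⁻¹ v)
      omega
    have hm' := (main τ g n hn hg hlt h3 c hc (3 * m - 1) hT).1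
    have e1 : n * (3 * m - 1) + n = 3 * (m * n) := by
      have : n * (3 * m - 1) + n = n * ((3 * m - 1) + 1) := by ring
      rw [this, Nat.sub_add_cancel (by omega)]; ring
    have e2 : n * (n - 1) + n = 2 * (m * n) := by
      have : n * (n - 1) + n = n * ((n - 1) + 1) := by ring
      rw [this, Nat.sub_add_cancel (by omega), hm]; ring
    omega

theorem small (τ : Equiv.Perm V) (f : V → ℕ) (n : ℕ) (hn : Fintype.card V = n)
    (hf : Function.Injective f) (h1 : ∀ v, 1 ≤ f v) (h2 : ∀ v, f v ≤ n)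
    (h3 : ∀ v, τ (τ (τ v)) ≠ v) {Q : Type} [Fintype Q] (c : V → Q)
    (hc : ∀ v w, c v = c w → (τ * τ * τ).SameCycle v w) :
    (Odd n → 6 * Fintype.card Q < n →
      ∃ v, 2 * (f (τ⁻¹ v) + f v + f (τ v)) + 4 ≤ 3 * (n + 1)) ∧
    (Even n → 2 * Fintype.card Q < n →
      ∃ v, 2 * (f (τ⁻¹ v) + f v + f (τ v)) + 3 ≤ 3 * (n + 1)) := by
  have key := big τ (fun v => n + 1 - f v) n hn (fun v w h => by
    apply hf
    have := h1 v
    have := h1 w
    have := h2 v
    have := h2 w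
    simp only at h
    omega) (fun v => by have := h2 v; omega) (fun v => by have := h1 v; omega) h3 c hc
  constructor
  · intro ho hq
    obtain ⟨v, hv⟩ := key.1 ho hq
    refine ⟨v, ?_⟩
    have := h1 v; have := h1 (τ v); have := h1 (τ⁻¹ v)
    have := h2 v; have := h2 (τ v); have := h2 (τ⁻¹ v)
    omega
  · intro ho hq
    obtain ⟨v, hv⟩ := key.2 ho hq
    refine ⟨v, ?_⟩
    have := h1 v; have := h1 (τ v); have := h1 (τ⁻¹ v)
    have := h2 v; have := h2 (τ v); have := h2 (τ⁻¹ v)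
    omega

end perm

/-! ### the parameters -/

section params

variable {V : Type}

/-- a labeling: a bijection `V → {1, …, n}`, `n = |V|` -/
def IsLabeling (f : V → ℕ) : Prop := Set.BijOn f Set.univ (Set.Icc 1 (Nat.card V))

/-- `f(N[v])`, the sum of the labels over the closed neighbourhood of `v` -/
noncomputable def closedSum (G : SimpleGraph V) (f : V → ℕ) (v : V) : ℕ :=
  ∑ᶠ x ∈ insert v (G.neighborSet v), f x

/-- `NS[G]` -/
noncomputable def NS (G : SimpleGraph V) : ℕ :=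
  sInf {M | ∃ f : V → ℕ, IsLabeling f ∧ IsGreatest (Set.range (closedSum G f)) M}

/-- `NS⁻[G]` -/
noncomputable def NSminus (G : SimpleGraph V) : ℕ :=
  sSup {m | ∃ f : V → ℕ, IsLabeling f ∧ IsLeast (Set.range (closedSum G f)) m}

/-- `NS^sp[G]` -/
noncomputable def NSspread (G : SimpleGraph V) : ℕ :=
  sInf {d | ∃ (f : V → ℕ) (M m : ℕ), IsLabeling f ∧ IsGreatest (Set.range (closedSum G f)) M ∧
    IsLeast (Set.range (closedSum G f)) m ∧ d = M - m}

end params

/-- the disjoint union of the cycles of lengths `t 0, …, t (k - 1)` -/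
def cycles {k : ℕ} (t : Fin k → ℕ) : SimpleGraph (Σ i, ZMod (t i)) :=
  SimpleGraph.fromRel fun v w => w = ⟨v.1, v.2 + 1⟩

section graphs

variable {k : ℕ} (t : Fin k → ℕ)

/-- the next vertex -/
def nx : Equiv.Perm (Σ i, ZMod (t i)) := Equiv.sigmaCongrRight fun _ => Equiv.addRight 1

theorem nx_apply (v : Σ i, ZMod (t i)) : nx t v = ⟨v.1, v.2 + 1⟩ := rfl

theorem nx_pow (i : Fin k) (x : ZMod (t i)) (m : ℕ) :
    ((nx t * nx t * nx t) ^ m) ⟨i, x⟩ = ⟨i, x + 3 * m⟩ := by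
  induction m with
  | zero => simp
  | succ m ih =>
    rw [pow_succ', Equiv.Perm.mul_apply, ih]
    change (⟨i, x + 3 * (m : ZMod (t i)) + 1 + 1 + 1⟩ : Σ i, ZMod (t i)) = _
    congr 1
    push_cast
    ring

/-- colours -/
def col (v : Σ i, ZMod (t i)) : Σ i, ZMod (Nat.gcd 3 (t i)) :=
  ⟨v.1, ZMod.castHom (Nat.gcd_dvd_right 3 (t v.1)) (ZMod (Nat.gcd 3 (t v.1))) v.2⟩

theorem col_same (ht : ∀ i, 4 ≤ t i) (v w : Σ i, ZMod (t i)) (h : col t v = col t w) :
    (nx t * nx t * nx t).SameCycle v w := by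
  obtain ⟨i, x⟩ := v
  obtain ⟨j, y⟩ := w
  unfold col at h
  simp only [Sigma.mk.injEq] at h
  obtain ⟨rfl, h⟩ := h
  rw [heq_eq_eq] at h
  have : NeZero (t i) := ⟨by have := ht i; omega⟩
  set d := Nat.gcd 3 (t i) with hd
  have h1 : ZMod.castHom (Nat.gcd_dvd_right 3 (t i)) (ZMod d) (y - x) = 0 := by
    rw [map_sub, h, sub_self]
  have h2 : ((y - x).val : ZMod d) = 0 := by
    rw [← h1]
    conv_rhs => rw [← ZMod.natCast_zmod_val (y - x)]
    rw [map_natCast]
  rw [ZMod.natCast_eq_zero_iff] at h2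
  obtain ⟨a, ha⟩ := h2
  have h3 : (y - x : ZMod (t i)) = ((d * a : ℕ) : ZMod (t i)) := by
    rw [← ha, ZMod.natCast_zmod_val]
  have h4 : ((d : ℕ) : ZMod (t i)) = 3 * ((Nat.gcdA 3 (t i) : ℤ) : ZMod (t i)) := by
    have h5 := congrArg (fun z : ℤ => (z : ZMod (t i))) (Nat.gcd_eq_gcd_ab 3 (t i))
    push_cast at h5
    rw [ZMod.natCast_self, zero_mul, add_zero] at h5
    rw [hd]
    exact h5
  set e : ZMod (t i) := ((Nat.gcdA 3 (t i) : ℤ) : ZMod (t i)) * (a : ZMod (t i)) with he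
  refine ⟨(e.val : ℤ), ?_⟩
  rw [zpow_natCast, nx_pow, ZMod.natCast_zmod_val]
  congr 1
  have h6 : y - x = 3 * e := by
    rw [h3, Nat.cast_mul, h4, he]; ring
  rw [← h6]; ring

theorem closedSum_eq (ht : ∀ i, 4 ≤ t i) (f : (Σ i, ZMod (t i)) → ℕ) (v : Σ i, ZMod (t i)) :
    closedSum (cycles t) f v = f ((nx t)⁻¹ v) + f v + f (nx t v) := by
  classical
  have hinj : ∀ w, (nx t)⁻¹ v = w ↔ v = nx t w := fun w => Equiv.Perm.inv_eq_iff_eq
  have hone : ∀ (m : ℕ) (i : Fin k), 0 < m → m < 4 → ((m : ℕ) : ZMod (t i)) ≠ 0 := by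
    intro m i h0 h4 h
    rw [ZMod.natCast_eq_zero_iff] at h
    have := Nat.le_of_dvd h0 h
    have := ht i
    omega
  have n1 : nx t v ≠ v := by
    obtain ⟨i, x⟩ := v
    rw [nx_apply]
    intro h
    simp only [Sigma.mk.injEq, heq_eq_eq, true_and, add_eq_left] at h
    exact hone 1 i (by norm_num) (by norm_num) (by simpa using h)
  have n2 : (nx t)⁻¹ v ≠ v := by
    intro h
    rw [hinj] at h
    exact n1 h.symm
  have n3 : (nx t)⁻¹ v ≠ nx t v := by
    intro h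
    rw [hinj] at h
    obtain ⟨i, x⟩ := v
    rw [nx_apply, nx_apply] at h
    simp only [Sigma.mk.injEq, heq_eq_eq, true_and] at h
    have h5 : ((2 : ℕ) : ZMod (t i)) = 0 := by
      have : x + ((2 : ℕ) : ZMod (t i)) = x + 0 := by
        rw [add_zero]
        conv_rhs => rw [h]
        push_cast
        ring
      exact add_left_cancel this
    exact hone 2 i (by norm_num) (by norm_num) h5
  have hset : (insert v ((cycles t).neighborSet v) : Set (Σ i, ZMod (t i))) =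
      (({(nx t)⁻¹ v, v, nx t v} : Finset (Σ i, ZMod (t i))) : Set (Σ i, ZMod (t i))) := by
    ext w
    simp only [Set.mem_insert_iff, SimpleGraph.mem_neighborSet, cycles, SimpleGraph.fromRel_adj,
      coe_insert, coe_singleton, Set.mem_singleton_iff]
    have e1 : (⟨v.1, v.2 + 1⟩ : Σ i, ZMod (t i)) = nx t v := rfl
    have e2 : (⟨w.1, w.2 + 1⟩ : Σ i, ZMod (t i)) = nx t w := rfl
    rw [e1, e2, ← hinj w]
    constructor
    · rintro (h | ⟨_, h | h⟩)
      · exact Or.inr (Or.inl h)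
      · exact Or.inr (Or.inr h)
      · exact Or.inl h.symm
    · rintro (h | h | h)
      · refine Or.inr ⟨?_, Or.inr h.symm⟩
        rw [h]; exact n2.symm
      · exact Or.inl h
      · refine Or.inr ⟨?_, Or.inl h⟩
        rw [h]; exact n1.symm
  unfold closedSum
  rw [hset, finsum_mem_coe_finset]
  rw [sum_insert (by simp only [mem_insert, mem_singleton, not_or]; exact ⟨n2, n3⟩),
    sum_insert (by rw [mem_singleton]; exact n1.symm), sum_singleton]
  ring

/-- the bounds for all labelings -/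
theorem bounds (ht : ∀ i, 4 ≤ t i) (f : (Σ i, ZMod (t i)) → ℕ) (hf : IsLabeling f) :
    (Odd (∑ i, t i) → 6 * ∑ i, Nat.gcd 3 (t i) < ∑ i, t i →
      (∃ v, 3 * (∑ i, t i + 1) + 4 ≤ 2 * closedSum (cycles t) f v) ∧
      (∃ v, 2 * closedSum (cycles t) f v + 4 ≤ 3 * (∑ i, t i + 1))) ∧
    (Even (∑ i, t i) → 2 * ∑ i, Nat.gcd 3 (t i) < ∑ i, t i →
      (∃ v, 3 * (∑ i, t i + 1) + 3 ≤ 2 * closedSum (cycles t) f v) ∧
      (∃ v, 2 * closedSum (cycles t) f v + 3 ≤ 3 * (∑ i, t i + 1))) := by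
  classical
  have : ∀ i, NeZero (t i) := fun i => ⟨by have := ht i; omega⟩
  have : ∀ i, NeZero (Nat.gcd 3 (t i)) := fun i => ⟨by
    have := Nat.gcd_pos_of_pos_left (t i) (by norm_num : 0 < 3); omega⟩
  have hcard : Fintype.card (Σ i, ZMod (t i)) = ∑ i, t i := by
    rw [Fintype.card_sigma]
    exact sum_congr rfl fun i _ => ZMod.card _
  have hcardQ : Fintype.card (Σ i, ZMod (Nat.gcd 3 (t i))) = ∑ i, Nat.gcd 3 (t i) := by
    rw [Fintype.card_sigma]
    exact sum_congr rfl fun i _ => ZMod.card _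
  unfold IsLabeling at hf
  rw [Nat.card_eq_fintype_card, hcard] at hf
  have hinj : Function.Injective f := fun v w h => hf.injOn (Set.mem_univ _) (Set.mem_univ _) h
  have hm : ∀ v, 1 ≤ f v ∧ f v ≤ ∑ i, t i := fun v => Set.mem_Icc.1 (hf.mapsTo (Set.mem_univ v))
  have h3 : ∀ v, nx t (nx t (nx t v)) ≠ v := by
    rintro ⟨i, x⟩ h
    rw [nx_apply, nx_apply, nx_apply] at h
    simp only [Sigma.mk.injEq, heq_eq_eq, true_and] at h
    have h5 : ((3 : ℕ) : ZMod (t i)) = 0 := by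
      have : x + ((3 : ℕ) : ZMod (t i)) = x + 0 := by
        rw [add_zero]
        conv_rhs => rw [← h]
        push_cast
        ring
      exact add_left_cancel this
    rw [ZMod.natCast_eq_zero_iff] at h5
    have := Nat.le_of_dvd (by norm_num) h5
    have := ht i
    omega
  have hb := big (nx t) f _ hcard hinj (fun v => (hm v).1) (fun v => (hm v).2) h3 (col t)
    (col_same t ht)
  have hs := small (nx t) f _ hcard hinj (fun v => (hm v).1) (fun v => (hm v).2) h3 (col t)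
    (col_same t ht)
  rw [hcardQ] at hb hs
  simp only [closedSum_eq t ht]
  exact ⟨fun ho hq => ⟨hb.1 ho hq, hs.1 ho hq⟩, fun ho hq => ⟨hb.2 ho hq, hs.2 ho hq⟩⟩

theorem exists_labeling (V : Type) [Finite V] : ∃ f : V → ℕ, IsLabeling f := by
  have e := Finite.equivFin V
  refine ⟨fun v => (e v : ℕ) + 1, fun v _ => ?_, fun v _ w _ h => ?_, fun x hx => ?_⟩
  · have h := (e v).2
    exact Set.mem_Icc.2 ⟨Nat.le_add_left 1 _, h⟩
  · apply e.injective
    apply Fin.ext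
    simpa using h
  · rw [Set.mem_Icc] at hx
    refine ⟨e.symm ⟨x - 1, by omega⟩, Set.mem_univ _, ?_⟩
    simp only [Equiv.apply_symm_apply]
    omega

theorem exists_max (V : Type) [Finite V] [Nonempty V] (s : V → ℕ) :
    (∃ M, IsGreatest (Set.range s) M) ∧ ∃ m, IsLeast (Set.range s) m := by
  obtain ⟨a, ha⟩ := Finite.exists_max s
  obtain ⟨b, hb⟩ := Finite.exists_min s
  refine ⟨⟨s a, ⟨a, rfl⟩, ?_⟩, ⟨s b, ⟨b, rfl⟩, ?_⟩⟩
  · rintro _ ⟨c, rfl⟩; exact ha c
  · rintro _ ⟨c, rfl⟩; exact hb c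

/-- the lower bounds -/
theorem final (ht : ∀ i, 4 ≤ t i) :
    (Odd (∑ i, t i) → 6 * ∑ i, Nat.gcd 3 (t i) < ∑ i, t i →
      3 * (∑ i, t i + 1) / 2 + 2 ≤ NS (cycles t) ∧
      NSminus (cycles t) ≤ 3 * (∑ i, t i + 1) / 2 - 2 ∧ 4 ≤ NSspread (cycles t)) ∧
    (Even (∑ i, t i) → 2 * ∑ i, Nat.gcd 3 (t i) < ∑ i, t i →
      (3 * ∑ i, t i + 6) / 2 ≤ NS (cycles t) ∧
      NSminus (cycles t) ≤ 3 * (∑ i, t i) / 2 ∧ 3 ≤ NSspread (cycles t)) := by
  have : ∀ i, NeZero (t i) := fun i => ⟨by have := ht i; omega⟩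
  set n := ∑ i, t i with hn
  have hne : 0 < n → Nonempty (Σ i, ZMod (t i)) := by
    intro h
    rw [hn] at h
    obtain ⟨i, _, _⟩ := exists_ne_zero_of_sum_ne_zero (ne_of_gt h)
    exact ⟨⟨i, 0⟩⟩
  have gen : 0 < n → ∀ a b d : ℕ, (∀ f, IsLabeling f →
      (∃ v, a ≤ closedSum (cycles t) f v) ∧ ∃ v, closedSum (cycles t) f v ≤ b) → b + d ≤ a →
      a ≤ NS (cycles t) ∧ NSminus (cycles t) ≤ b ∧ d ≤ NSspread (cycles t) := by
    intro h0 a b d H hd
    have := hne h0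
    obtain ⟨f0, hf0⟩ := exists_labeling (Σ i, ZMod (t i))
    obtain ⟨⟨M0, hM0⟩, ⟨m0, hm0⟩⟩ := exists_max _ (closedSum (cycles t) f0)
    refine ⟨?_, ?_, ?_⟩
    · refine le_csInf ⟨M0, f0, hf0, hM0⟩ ?_
      rintro M ⟨f, hf, hM⟩
      obtain ⟨v, hv⟩ := (H f hf).1
      exact hv.trans (hM.2 ⟨v, rfl⟩)
    · refine csSup_le ⟨m0, f0, hf0, hm0⟩ ?_
      rintro m ⟨f, hf, hm⟩
      obtain ⟨v, hv⟩ := (H f hf).2
      exact (hm.2 ⟨v, rfl⟩).trans hv
    · refine le_csInf ⟨M0 - m0, f0, M0, m0, hf0, hM0, hm0, rfl⟩ ?_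
      rintro _ ⟨f, M, m, hf, hM, hm, rfl⟩
      obtain ⟨v, hv⟩ := (H f hf).1
      obtain ⟨w, hw⟩ := (H f hf).2
      have h1 := hM.2 ⟨v, rfl⟩
      have h2 := hm.2 ⟨w, rfl⟩
      omega
  constructor
  · intro ho hq
    have hpos : 0 < n := by omega
    obtain ⟨m, hm⟩ := ho
    refine gen hpos _ _ _ (fun f hf => ?_) (by omega)
    obtain ⟨⟨v, hv⟩, ⟨w, hw⟩⟩ := (bounds t ht f hf).1 ⟨m, hm⟩ hq
    rw [← hn] at hv hw
    exact ⟨⟨v, by omega⟩, ⟨w, by omega⟩⟩
  · intro ho hq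
    have hpos : 0 < n := by omega
    obtain ⟨m, hm⟩ := ho
    refine gen hpos _ _ _ (fun f hf => ?_) (by omega)
    obtain ⟨⟨v, hv⟩, ⟨w, hw⟩⟩ := (bounds t ht f hf).2 ⟨m, hm⟩ hq
    rw [← hn] at hv hw
    exact ⟨⟨v, by omega⟩, ⟨w, by omega⟩⟩

end graphs

end Pool.Agent.K1H13.CY
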