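import Pool.Agent.K1H13.CY.Cyc

/-!
# Cycles of length not divisible by three: linear growth of the spread
-/

set_option autoImplicit false

namespace Pool.Agent.K1H13.CY

open Finset

section low

variable {k t : ℕ}

theorem step_le (ht : 4 ≤ t) (f : (Σ _ : Fin k, ZMod t) → ℕ) (M m : ℕ)
    (hM : ∀ v, closedSum (cycles fun _ : Fin k => t) f v ≤ M)
    (hm : ∀ v, m ≤ closedSum (cycles fun _ : Fin k => t) f v) (j : Fin k) (x : ZMod t) (i : ℕ) :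
    f ⟨j, x + 3 * i⟩ ≤ f ⟨j, x⟩ + i * (M - m) := by
  classical
  have : NeZero t := ⟨by omega⟩
  induction i with
  | zero => simp
  | succ i ih =>
    set u : (Σ _ : Fin k, ZMod t) := ⟨j, x + 3 * i⟩ with hu
    have h1 := hm (nx (fun _ : Fin k => t) u)
    have h2 := hM (nx (fun _ : Fin k => t) (nx (fun _ : Fin k => t) u))
    rw [closedSum_eq (fun _ : Fin k => t) (fun _ => ht), ia] at h1 h2
    have e : (⟨j, x + 3 * ((i + 1 : ℕ) : ZMod t)⟩ : Σ _ : Fin k, ZMod t) =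
        nx (fun _ : Fin k => t) (nx (fun _ : Fin k => t) (nx (fun _ : Fin k => t) u)) := by
      rw [nx_apply, nx_apply, nx_apply, hu]
      congr 1
      push_cast
      ring
    rw [e]
    have h4 : (i + 1) * (M - m) = i * (M - m) + (M - m) := by ring
    rw [h4]
    omega

theorem all_le (ht : 4 ≤ t) (h3 : ¬ 3 ∣ t) (f : (Σ _ : Fin k, ZMod t) → ℕ) (M m : ℕ)
    (hM : ∀ v, closedSum (cycles fun _ : Fin k => t) f v ≤ M)
    (hm : ∀ v, m ≤ closedSum (cycles fun _ : Fin k => t) f v) (j : Fin k) (x y : ZMod t) :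
    f ⟨j, y⟩ ≤ f ⟨j, x⟩ + (t - 1) * (M - m) := by
  have : NeZero t := ⟨by omega⟩
  have hc : Nat.Coprime 3 t := (Nat.Prime.coprime_iff_not_dvd (by norm_num)).2 h3
  have h := step_le ht f M m hM hm j x (((3 : ℕ) : ZMod t)⁻¹ * (y - x)).val
  have h5 : x + 3 * (((((3 : ℕ) : ZMod t)⁻¹ * (y - x)).val : ℕ) : ZMod t) = y := by
    rw [ZMod.natCast_zmod_val, ← mul_assoc]
    have h6 : (3 : ZMod t) * ((3 : ℕ) : ZMod t)⁻¹ = 1 := by
      have := ZMod.coe_mul_inv_eq_one 3 hc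
      exact_mod_cast this
    rw [h6, one_mul]
    ring
  rw [h5] at h
  refine h.trans (Nat.add_le_add_left (Nat.mul_le_mul_right _ ?_) _)
  have := ZMod.val_lt (((3 : ℕ) : ZMod t)⁻¹ * (y - x))
  omega

theorem low (hk : 0 < k) (ht : 4 ≤ t) (h3 : ¬ 3 ∣ t) :
    3 * (k * t - 1) ≤ (6 * t - 5) * NSspread (cycles fun _ : Fin k => t) := by
  classical
  have : NeZero t := ⟨by omega⟩
  have hcard : Nat.card (Σ _ : Fin k, ZMod t) = k * t := by
    rw [Nat.card_eq_fintype_card, Fintype.card_sigma]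
    simp [ZMod.card]
  have hne : Nonempty (Σ _ : Fin k, ZMod t) := ⟨⟨⟨0, hk⟩, 0⟩⟩
  have hkt : 1 ≤ k * t := Nat.mul_pos hk (by omega)
  obtain ⟨f0, hf0⟩ := exists_labeling (Σ _ : Fin k, ZMod t)
  obtain ⟨⟨M0, hM0⟩, ⟨m0, hm0⟩⟩ := exists_max _ (closedSum (cycles fun _ : Fin k => t) f0)
  have hmem : NSspread (cycles fun _ : Fin k => t) ∈
      {d | ∃ (f : (Σ _ : Fin k, ZMod t) → ℕ) (M m : ℕ), IsLabeling f ∧
        IsGreatest (Set.range (closedSum (cycles fun _ : Fin k => t) f)) M ∧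
        IsLeast (Set.range (closedSum (cycles fun _ : Fin k => t) f)) m ∧ d = M - m} :=
    Nat.sInf_mem ⟨M0 - m0, f0, M0, m0, hf0, hM0, hm0, rfl⟩
  obtain ⟨f, M, m, hf, hM, hm, hd⟩ := hmem
  rw [hd]
  unfold IsLabeling at hf
  rw [hcard] at hf
  have hM' : ∀ v, closedSum (cycles fun _ : Fin k => t) f v ≤ M := fun v => hM.2 ⟨v, rfl⟩
  have hm' : ∀ v, m ≤ closedSum (cycles fun _ : Fin k => t) f v := fun v => hm.2 ⟨v, rfl⟩
  obtain ⟨v1, _, hv1⟩ := hf.surjOn (Set.mem_Icc.2 ⟨le_rfl, hkt⟩)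
  obtain ⟨vn, _, hvn⟩ := hf.surjOn (Set.mem_Icc.2 ⟨hkt, le_rfl⟩)
  obtain ⟨j1, x1⟩ := v1
  obtain ⟨jn, xn⟩ := vn
  have a1 := hm' (nx (fun _ : Fin k => t) ⟨j1, x1⟩)
  have an := hM' (nx (fun _ : Fin k => t) ⟨jn, xn⟩)
  rw [closedSum_eq (fun _ : Fin k => t) (fun _ => ht), ia] at a1 an
  rw [nx_apply, nx_apply] at a1 an
  have b1 := all_le ht h3 f M m hM' hm' j1 x1 (x1 + 1)
  have b2 := all_le ht h3 f M m hM' hm' j1 x1 (x1 + 1 + 1)
  have c1 := all_le ht h3 f M m hM' hm' jn (xn + 1) xn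
  have c2 := all_le ht h3 f M m hM' hm' jn (xn + 1 + 1) xn
  simp only at a1 an
  rw [hv1] at a1 b1 b2
  rw [hvn] at an c1 c2
  obtain ⟨s, hs⟩ : ∃ s, t = s + 1 := ⟨t - 1, by omega⟩
  have e1 : (6 * t - 5) * (M - m) = 6 * ((t - 1) * (M - m)) + (M - m) := by
    have : 6 * t - 5 = 6 * (t - 1) + 1 := by omega
    rw [this]; ring
  rw [e1]
  generalize (t - 1) * (M - m) = E at *
  generalize k * t = n at *
  omega

end low

/-- the blow-up -/
theorem upp (k t : ℕ) (hk : 0 < k) (ht : 4 ≤ t) :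
    NSspread (cycles fun _ : Fin k => t) + 3 ≤
      k * (NSspread (cycles fun _ : Fin 1 => t) + 3) := by
  classical
  have : NeZero t := ⟨by omega⟩
  have hcard : ∀ k, Nat.card (Σ _ : Fin k, ZMod t) = k * t := by
    intro k
    rw [Nat.card_eq_fintype_card, Fintype.card_sigma]
    simp [ZMod.card]
  have hne1 : Nonempty (Σ _ : Fin 1, ZMod t) := ⟨⟨0, 0⟩⟩
  have hne : Nonempty (Σ _ : Fin k, ZMod t) := ⟨⟨⟨0, hk⟩, 0⟩⟩
  obtain ⟨f0, hf0⟩ := exists_labeling (Σ _ : Fin 1, ZMod t)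
  obtain ⟨⟨M0, hM0⟩, ⟨m0, hm0⟩⟩ := exists_max _ (closedSum (cycles fun _ : Fin 1 => t) f0)
  have hmem : NSspread (cycles fun _ : Fin 1 => t) ∈
      {d | ∃ (f : (Σ _ : Fin 1, ZMod t) → ℕ) (M m : ℕ), IsLabeling f ∧
        IsGreatest (Set.range (closedSum (cycles fun _ : Fin 1 => t) f)) M ∧
        IsLeast (Set.range (closedSum (cycles fun _ : Fin 1 => t) f)) m ∧ d = M - m} :=
    Nat.sInf_mem ⟨M0 - m0, f0, M0, m0, hf0, hM0, hm0, rfl⟩
  obtain ⟨f, M, m, hf, hM, hm, hd⟩ := hmem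
  rw [hd]
  unfold IsLabeling at hf
  rw [hcard 1, one_mul] at hf
  have hr : ∀ x : ZMod t, 1 ≤ f ⟨0, x⟩ ∧ f ⟨0, x⟩ ≤ t := fun x =>
    Set.mem_Icc.1 (hf.mapsTo (Set.mem_univ _))
  -- the new labeling
  set F : (Σ _ : Fin k, ZMod t) → ℕ := fun v => k * (f ⟨0, v.2⟩ - 1) + (v.1 : ℕ) + 1 with hF
  have hFl : IsLabeling F := by
    unfold IsLabeling
    rw [hcard k]
    have hinj : Function.Injective F := by
      rintro ⟨j, x⟩ ⟨j', x'⟩ h
      simp only [hF] at h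
      have hj := j.2
      have hj' := j'.2
      have h1 : (f ⟨0, x⟩ - 1) * k + (j : ℕ) = (f ⟨0, x'⟩ - 1) * k + (j' : ℕ) := by
        rw [mul_comm, mul_comm (f ⟨0, x'⟩ - 1)]; omega
      have key : f ⟨0, x⟩ - 1 = f ⟨0, x'⟩ - 1 ∧ (j : ℕ) = j' := by
        have h2 : ((f ⟨0, x⟩ - 1) * k + (j : ℕ)) / k = f ⟨0, x⟩ - 1 := by
          rw [mul_comm, Nat.mul_add_div hk, Nat.div_eq_of_lt hj, add_zero]
        have h3 : ((f ⟨0, x'⟩ - 1) * k + (j' : ℕ)) / k = f ⟨0, x'⟩ - 1 := by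
          rw [mul_comm, Nat.mul_add_div hk, Nat.div_eq_of_lt hj', add_zero]
        have h4 : f ⟨0, x⟩ - 1 = f ⟨0, x'⟩ - 1 := by rw [← h2, h1, h3]
        rw [h4] at h1
        exact ⟨h4, by omega⟩
      have h5 : f ⟨0, x⟩ = f ⟨0, x'⟩ := by
        have := (hr x).1
        have := (hr x').1
        have := key.1
        omega
      have h6 := hf.injOn (Set.mem_univ _) (Set.mem_univ _) h5
      simp only [Sigma.mk.injEq, heq_eq_eq, true_and] at h6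
      rw [h6, Fin.ext key.2]
    have hrg : ∀ v, 1 ≤ F v ∧ F v ≤ k * t := by
      rintro ⟨j, x⟩
      simp only [hF]
      have h1 := hr x
      have h2 : k * (f ⟨0, x⟩ - 1) + k ≤ k * t := by
        have : k * (f ⟨0, x⟩ - 1) + k = k * (f ⟨0, x⟩ - 1 + 1) := by ring
        rw [this]
        exact Nat.mul_le_mul_left k (by omega)
      have := j.2
      exact ⟨by omega, by omega⟩
    have himg : (univ : Finset (Σ _ : Fin k, ZMod t)).image F = Icc 1 (k * t) := by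
      apply eq_of_subset_of_card_le
      · intro x hx
        obtain ⟨v, _, rfl⟩ := mem_image.1 hx
        exact mem_Icc.2 (hrg v)
      · rw [card_image_of_injective _ hinj, card_univ, ← Nat.card_eq_fintype_card, hcard k,
          Nat.card_Icc]
        omega
    refine ⟨fun v _ => Set.mem_Icc.2 (hrg v), fun v _ w _ h => hinj h, fun x hx => ?_⟩
    have hx' : x ∈ Icc 1 (k * t) := mem_Icc.2 (Set.mem_Icc.1 hx)
    rw [← himg, mem_image] at hx'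
    obtain ⟨v, _, hv⟩ := hx'
    exact ⟨v, Set.mem_univ v, hv⟩
  have hsum : ∀ v, ∃ w, closedSum (cycles fun _ : Fin k => t) F v + 3 * k =
      k * closedSum (cycles fun _ : Fin 1 => t) f w + 3 * ((v.1 : ℕ) + 1) := by
    intro v
    obtain ⟨u, rfl⟩ := (nx fun _ : Fin k => t).surjective v
    obtain ⟨j, x⟩ := u
    refine ⟨nx (fun _ : Fin 1 => t) ⟨0, x⟩, ?_⟩
    rw [closedSum_eq (fun _ : Fin k => t) (fun _ => ht), ia,
      closedSum_eq (fun _ : Fin 1 => t) (fun _ => ht), ia]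
    simp only [nx_apply, hF]
    obtain ⟨a, ha⟩ : ∃ a, f ⟨0, x⟩ = a + 1 := ⟨f ⟨0, x⟩ - 1, by have := hr x; omega⟩
    obtain ⟨b, hb⟩ : ∃ b, f ⟨0, x + 1⟩ = b + 1 := ⟨f ⟨0, x + 1⟩ - 1, by
      have := hr (x + 1); omega⟩
    obtain ⟨c, hc⟩ : ∃ c, f ⟨0, x + 1 + 1⟩ = c + 1 := ⟨f ⟨0, x + 1 + 1⟩ - 1, by
      have := hr (x + 1 + 1); omega⟩
    rw [ha, hb, hc]
    simp only [Nat.add_sub_cancel]
    ring
  obtain ⟨⟨M', hM'⟩, ⟨m', hm'⟩⟩ := exists_max _ (closedSum (cycles fun _ : Fin k => t) F)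
  have hle : NSspread (cycles fun _ : Fin k => t) ≤ M' - m' :=
    Nat.sInf_le ⟨F, M', m', hFl, hM', hm', rfl⟩
  obtain ⟨v, hv⟩ := hM'.1
  obtain ⟨w, hw⟩ := hm'.1
  obtain ⟨v2, hv2⟩ := hsum v
  obtain ⟨w2, hw2⟩ := hsum w
  rw [hv] at hv2
  rw [hw] at hw2
  have p1 : closedSum (cycles fun _ : Fin 1 => t) f v2 ≤ M := hM.2 ⟨v2, rfl⟩
  have p2 : m ≤ closedSum (cycles fun _ : Fin 1 => t) f w2 := hm.2 ⟨w2, rfl⟩
  have p3 := Nat.mul_le_mul_left k p1
  have p4 := Nat.mul_le_mul_left k p2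
  have hmM : m ≤ M := (hm.2 ⟨v2, rfl⟩).trans p1
  have p5 : k * (M - m + 3) = k * M - k * m + 3 * k := by
    rw [Nat.mul_add, Nat.mul_sub]; ring
  have p6 := Nat.mul_le_mul_left k hmM
  rw [p5]
  have := v.1.2
  have := w.1.2
  omega

end Pool.Agent.K1H13.CY
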