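import Pool.Agent.K1H13.CY.Lab
import Pool.Agent.K1H13.CY.Grow

/-!
# Cycles of length divisible by three: the spread is bounded in `k`
-/

set_option autoImplicit false

namespace Pool.Agent.K1H13.CY

open Finset

/-- the rows of the array with `k` columns, `k` even -/
def ke (k c j : ℕ) : ℕ :=
  if c = 0 then j
  else if c = 1 then (if j % 2 = 0 then k / 2 - 1 - j / 2 else k - 1 - j / 2)
  else (if j % 2 = 0 then k - 1 - j / 2 else k / 2 - (j + 1) / 2)

theorem ke_lt (k c j : ℕ) (hk : k % 2 = 0) (hj : j < k) : ke k c j < k := by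
  unfold ke; split_ifs <;> omega

theorem ke_inj (k c j j' : ℕ) (hk : k % 2 = 0) (hj : j < k) (hj' : j' < k)
    (h : ke k c j = ke k c j') : j = j' := by
  unfold ke at h; split_ifs at h <;> omega

theorem ke_sum (k j : ℕ) (hk : k % 2 = 0) (hj : j < k) :
    3 * (k / 2) ≤ ke k 0 j + ke k 1 j + ke k 2 j + 2 ∧
      ke k 0 j + ke k 1 j + ke k 2 j + 1 ≤ 3 * (k / 2) := by
  unfold ke
  simp only [if_true, one_ne_zero, if_false, OfNat.ofNat_ne_zero, OfNat.ofNat_ne_one]
  split_ifs <;> omega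

/-- the label of the vertex `a` of the cycle `j` -/
def labe (k m j a : ℕ) : ℕ := ((a % 3) * k + ke k (a % 3) j) * m + rr m (a % 3) (a / 3)

theorem labe_eq (k m j c q : ℕ) (hc : c < 3) :
    labe k m j (3 * q + c) = (c * k + ke k c j) * m + rr m c q := by
  unfold labe
  have e1 : (3 * q + c) % 3 = c := by omega
  have e2 : (3 * q + c) / 3 = q := by omega
  rw [e1, e2]

theorem labe_range (k m j a : ℕ) (hk : k % 2 = 0) (hj : j < k) (ha : a < 3 * m) :
    1 ≤ labe k m j a ∧ labe k m j a ≤ k * (3 * m) := by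
  have h1 := (rr_bij m (a % 3) (a / 3) (a / 3) (by omega) (by omega) (by omega)).1
  have h2 := ke_lt k (a % 3) j hk hj
  have h3 : (a % 3) * k + ke k (a % 3) j + 1 ≤ 3 * k := by
    have : a % 3 < 3 := by omega
    have h4 : (a % 3) * k ≤ 2 * k := Nat.mul_le_mul_right k (by omega)
    omega
  have h4 := Nat.mul_le_mul_right m h3
  have h5 : 3 * k * m = k * (3 * m) := by ring
  rw [Nat.add_mul, one_mul, h5] at h4
  unfold labe
  exact ⟨by omega, by omega⟩

theorem labe_inj (k m j a j' a' : ℕ) (hk : k % 2 = 0) (hj : j < k) (ha : a < 3 * m) (hj' : j' < k)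
    (ha' : a' < 3 * m) (h : labe k m j a = labe k m j' a') : j = j' ∧ a = a' := by
  have h1 := (rr_bij m (a % 3) (a / 3) (a / 3) (by omega) (by omega) (by omega)).1
  have h1' := (rr_bij m (a' % 3) (a' / 3) (a' / 3) (by omega) (by omega) (by omega)).1
  have h2 := ke_lt k (a % 3) j hk hj
  have h2' := ke_lt k (a' % 3) j' hk hj'
  unfold labe at h
  obtain ⟨h3, h4⟩ := dm (m := m) (a := (a % 3) * k + ke k (a % 3) j)
    (a' := (a' % 3) * k + ke k (a' % 3) j') (b := rr m (a % 3) (a / 3) - 1)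
    (b' := rr m (a' % 3) (a' / 3) - 1) (by omega) (by omega) (by omega)
  obtain ⟨h5, h6⟩ := dm h2 h2' h3
  rw [h5] at h6 h4 h1
  refine ⟨ke_inj k _ j j' hk hj hj' h6, ?_⟩
  have h7 := (rr_bij m (a' % 3) (a / 3) (a' / 3) (by omega) (by omega) (by omega)).2 (by omega)
  omega

theorem tote (k m x y z S : ℕ) (h : 3 * (k / 2) ≤ x + y + z + 2)
    (h' : x + y + z + 1 ≤ 3 * (k / 2)) :
    (3 * k + 3 * (k / 2)) * m + S ≤
        (0 * k + x) * m + (1 * k + y) * m + (2 * k + z) * m + S + 2 * m ∧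
      (0 * k + x) * m + (1 * k + y) * m + (2 * k + z) * m + S + m ≤
        (3 * k + 3 * (k / 2)) * m + S := by
  have e : (0 * k + x) * m + (1 * k + y) * m + (2 * k + z) * m = (3 * k + (x + y + z)) * m := by
    ring
  rw [e]
  have h1 : (3 * k + 3 * (k / 2)) * m ≤ (3 * k + (x + y + z) + 2) * m :=
    Nat.mul_le_mul_right m (by omega)
  have h2 : (3 * k + (x + y + z) + 1) * m ≤ (3 * k + 3 * (k / 2)) * m :=
    Nat.mul_le_mul_right m (by omega)
  rw [Nat.add_mul (3 * k + (x + y + z)) 2 m] at h1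
  rw [Nat.add_mul (3 * k + (x + y + z)) 1 m] at h2
  omega

/-- the sums -/
theorem labe_sum (k m j a b c : ℕ) (hk : k % 2 = 0) (hm : 4 ≤ m) (hj : j < k) (ha : a < 3 * m)
    (hb : b = if a + 1 < 3 * m then a + 1 else 0) (hc : c = if b + 1 < 3 * m then b + 1 else 0) :
    2 * ((3 * k + 3 * (k / 2)) * m) + 3 * (m + 1) ≤
        2 * (labe k m j a + labe k m j b + labe k m j c) + 4 * m + 4 ∧
      2 * (labe k m j a + labe k m j b + labe k m j c) + 2 * m ≤
        2 * ((3 * k + 3 * (k / 2)) * m) + 3 * (m + 1) + 4 := by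
  have hs := ke_sum k j hk hj
  set q := a / 3 with hq
  have hqm : q < m := by omega
  set q1 := (if q + 1 < m then q + 1 else 0) with hq1
  have h1 : (q + 1 < m ∧ q1 = q + 1) ∨ (q + 1 = m ∧ q1 = 0) := by
    rw [hq1]; split_ifs <;> omega
  obtain ⟨W0, W1, W2⟩ := windows m q q1 hm hqm h1
  have ht := tote k m (ke k 0 j) (ke k 1 j) (ke k 2 j)
  generalize (3 * k + 3 * (k / 2)) * m = X at *
  have h3 : a % 3 = 0 ∨ a % 3 = 1 ∨ a % 3 = 2 := by omega
  rcases h3 with h3 | h3 | h3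
  · have ea : a = 3 * q + 0 := by omega
    have eb : b = 3 * q + 1 := by rw [hb, if_pos (by omega)]; omega
    have ec : c = 3 * q + 2 := by rw [hc, if_pos (by omega)]; omega
    rw [ea, eb, ec, labe_eq k m j 0 q (by omega), labe_eq k m j 1 q (by omega),
      labe_eq k m j 2 q (by omega)]
    have := ht (rr m 0 q + rr m 1 q + rr m 2 q) hs.1 hs.2
    unfold Wn at W0
    split_ifs at W0 ⊢ <;> omega
  · have ea : a = 3 * q + 1 := by omega
    have eb : b = 3 * q + 2 := by rw [hb, if_pos (by omega)]; omega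
    have ec : c = 3 * q1 + 0 := by rw [hc]; split_ifs <;> omega
    rw [ea, eb, ec, labe_eq k m j 0 q1 (by omega), labe_eq k m j 1 q (by omega),
      labe_eq k m j 2 q (by omega)]
    have := ht (rr m 0 q1 + rr m 1 q + rr m 2 q) hs.1 hs.2
    unfold Wn at W1
    split_ifs at W1 ⊢ <;> omega
  · have ea : a = 3 * q + 2 := by omega
    have eb : b = 3 * q1 + 0 := by rw [hb]; split_ifs <;> omega
    have ec : c = 3 * q1 + 1 := by rw [hc, if_pos (by omega)]; omega
    rw [ea, eb, ec, labe_eq k m j 0 q1 (by omega), labe_eq k m j 1 q1 (by omega),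
      labe_eq k m j 2 q (by omega)]
    have := ht (rr m 0 q1 + rr m 1 q1 + rr m 2 q) hs.1 hs.2
    unfold Wn at W2
    split_ifs at W2 ⊢ <;> omega

theorem even_case (k m : ℕ) (hk0 : 0 < k) (hk : k % 2 = 0) (hm : 4 ≤ m) :
    NSspread (cycles fun _ : Fin k => 3 * m) ≤ m + 4 := by
  classical
  have : NeZero (3 * m) := ⟨by omega⟩
  have hcard : Fintype.card (Σ _ : Fin k, ZMod (3 * m)) = k * (3 * m) := by
    rw [Fintype.card_sigma]
    simp [ZMod.card]
  have hne : Nonempty (Σ _ : Fin k, ZMod (3 * m)) := ⟨⟨⟨0, hk0⟩, 0⟩⟩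
  set F : (Σ _ : Fin k, ZMod (3 * m)) → ℕ := fun v => labe k m v.1 v.2.val with hF
  have hFl : IsLabeling F := by
    unfold IsLabeling
    rw [Nat.card_eq_fintype_card, hcard]
    have hinj : Function.Injective F := by
      rintro ⟨j, x⟩ ⟨j', x'⟩ h
      obtain ⟨h1, h2⟩ := labe_inj k m j x.val j' x'.val hk j.2 (ZMod.val_lt x) j'.2
        (ZMod.val_lt x') h
      have h3 : j = j' := Fin.ext h1
      subst h3
      rw [ZMod.val_injective _ h2]
    have hr : ∀ v, 1 ≤ F v ∧ F v ≤ k * (3 * m) := fun v =>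
      labe_range k m v.1 v.2.val hk v.1.2 (ZMod.val_lt v.2)
    have himg : (univ : Finset (Σ _ : Fin k, ZMod (3 * m))).image F = Icc 1 (k * (3 * m)) := by
      apply eq_of_subset_of_card_le
      · intro x hx
        obtain ⟨v, _, rfl⟩ := mem_image.1 hx
        exact mem_Icc.2 (hr v)
      · rw [card_image_of_injective _ hinj, card_univ, hcard, Nat.card_Icc]
        omega
    refine ⟨fun v _ => Set.mem_Icc.2 (hr v), fun v _ w _ h => hinj h, fun x hx => ?_⟩
    have hx' : x ∈ Icc 1 (k * (3 * m)) := mem_Icc.2 (Set.mem_Icc.1 hx)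
    rw [← himg, mem_image] at hx'
    obtain ⟨v, _, hv⟩ := hx'
    exact ⟨v, Set.mem_univ v, hv⟩
  have hsum : ∀ v, 2 * ((3 * k + 3 * (k / 2)) * m) + 3 * (m + 1) ≤
        2 * closedSum (cycles fun _ : Fin k => 3 * m) F v + 4 * m + 4 ∧
      2 * closedSum (cycles fun _ : Fin k => 3 * m) F v + 2 * m ≤
        2 * ((3 * k + 3 * (k / 2)) * m) + 3 * (m + 1) + 4 := by
    intro v
    obtain ⟨u, rfl⟩ := (nx fun _ : Fin k => 3 * m).surjective v
    rw [closedSum_eq (fun _ : Fin k => 3 * m) (fun _ => by omega), ia]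
    obtain ⟨j, x⟩ := u
    rw [nx_apply, nx_apply]
    exact labe_sum k m j x.val (x + 1).val (x + 1 + 1).val hk hm j.2 (ZMod.val_lt x)
      (val_succ _ (by omega) x) (val_succ _ (by omega) (x + 1))
  obtain ⟨⟨M', hM'⟩, ⟨m', hm'⟩⟩ := exists_max _ (closedSum (cycles fun _ : Fin k => 3 * m) F)
  have hle : NSspread (cycles fun _ : Fin k => 3 * m) ≤ M' - m' :=
    Nat.sInf_le ⟨F, M', m', hFl, hM', hm', rfl⟩
  obtain ⟨v, hv⟩ := hM'.1
  obtain ⟨w, hw⟩ := hm'.1
  have s1 := hsum v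
  have s2 := hsum w
  rw [hv] at s1
  rw [hw] at s2
  omega

theorem bounded (k t : ℕ) (hk : 0 < k) (h3 : 3 ∣ t) (ht : 12 ≤ t) :
    NSspread (cycles fun _ : Fin k => t) ≤ t / 3 + 4 := by
  obtain ⟨m, rfl⟩ := h3
  have e : 3 * m / 3 = m := by omega
  rw [e]
  rcases Nat.even_or_odd k with hk2 | hk2
  · exact even_case k m hk (Nat.even_iff.1 hk2) (by omega)
  · have : NeZero (3 * m) := ⟨by omega⟩
    have : Nonempty (Σ _ : Fin k, ZMod (3 * m)) := ⟨⟨⟨0, hk⟩, 0⟩⟩
    obtain ⟨f, hf, hw⟩ := labeling k m (Nat.odd_iff.1 hk2) (by omega)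
    obtain ⟨⟨M, hM⟩, ⟨m0, hm0⟩⟩ := exists_max _ (closedSum (cycles fun _ : Fin k => 3 * m) f)
    obtain ⟨v, hv⟩ := hM.1
    obtain ⟨w, hw'⟩ := hm0.1
    have a3 : NSspread (cycles fun _ : Fin k => 3 * m) ≤ M - m0 :=
      Nat.sInf_le ⟨f, M, m0, hf, hM, hm0, rfl⟩
    have b1 := (hw v).2
    have b2 := (hw w).1
    rw [hv] at b1
    rw [hw'] at b2
    split_ifs at b1 b2 <;> omega

end Pool.Agent.K1H13.CY
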