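import Mathlib

/-!
# A Kotzig array with three rows
-/

set_option autoImplicit false

namespace Pool.Agent.K1H13.CY

/-- the rows of the array with `k` columns, `k` odd -/
def kk (k c j : ℕ) : ℕ :=
  if c = 0 then j
  else if c = 1 then (if j % 2 = 0 then k / 2 - j / 2 else 2 * (k / 2) - j / 2)
  else (if j % 2 = 0 then 2 * (k / 2) - j / 2 else k / 2 - (j + 1) / 2)

theorem kk_lt (k c j : ℕ) (hk : k % 2 = 1) (hj : j < k) : kk k c j < k := by
  unfold kk; split_ifs <;> omega

theorem kk_inj (k c j j' : ℕ) (hk : k % 2 = 1) (hj : j < k) (hj' : j' < k)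
    (h : kk k c j = kk k c j') : j = j' := by
  unfold kk at h; split_ifs at h <;> omega

theorem kk_sum (k j : ℕ) (hk : k % 2 = 1) (hj : j < k) :
    kk k 0 j + kk k 1 j + kk k 2 j = 3 * (k / 2) := by
  unfold kk
  simp only [if_true, one_ne_zero, if_false, OfNat.ofNat_ne_zero, OfNat.ofNat_ne_one]
  split_ifs <;> omega

theorem dm {a b a' b' m : ℕ} (hb : b < m) (hb' : b' < m) (h : a * m + b = a' * m + b') :
    a = a' ∧ b = b' := by
  have key : ∀ a a' b b' : ℕ, b < m → b' < m → a * m + b = a' * m + b' → ¬ a < a' := by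
    intro a a' b b' hb hb' h hlt
    have : (a + 1) * m ≤ a' * m := Nat.mul_le_mul_right m hlt
    rw [Nat.add_mul, one_mul] at this
    omega
  have h1 := key a a' b b' hb hb' h
  have h2 := key a' a b' b hb' hb h.symm
  have h3 : a = a' := by omega
  subst h3
  exact ⟨rfl, by omega⟩

end Pool.Agent.K1H13.CY
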