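import Pool.Agent.K1H13.CY.Win

/-!
# The sums of the labeling of one cycle
-/

set_option autoImplicit false

namespace Pool.Agent.K1H13.CY

theorem w00 (p q : ℕ) (hp : 2 ≤ p) (hq : q < 3 * p) :
    Wn (3 * p) (Vv p 1 (3 * p) 1 q +
      Vv p 2 (3 * p) 2 (wr (3 * p) (q + p)) +
      Vv p 3 (3 * p - 1) 1 (wr (3 * p) (q + 2 * p))) := by
  have hx := Vv_cases p 1 (3 * p) 1 q
  have hy := Vv_cases p 2 (3 * p) 2 (wr (3 * p) (q + p))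
  have hz := Vv_cases p 3 (3 * p - 1) 1 (wr (3 * p) (q + 2 * p))
  have wy := wr_cases (3 * p) (q + p)
  have wz := wr_cases (3 * p) (q + 2 * p)
  generalize Vv p 3 (3 * p - 1) 1 (wr (3 * p) (q + 2 * p)) = Z at *
  generalize Vv p 2 (3 * p) 2 (wr (3 * p) (q + p)) = Y at *
  generalize Vv p 1 (3 * p) 1 q = X at *
  generalize wr (3 * p) (q + 2 * p) = b at *
  generalize wr (3 * p) (q + p) = a at *
  unfold Wn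
  rcases wy with ⟨wy1, rfl⟩ | ⟨wy1, rfl⟩ <;> rcases wz with ⟨wz1, rfl⟩ | ⟨wz1, rfl⟩ <;>
  rcases hx with ⟨x1, rfl⟩ | ⟨rx, x1, x2, rfl⟩ | ⟨rx, x1, x2, rfl⟩ <;>
  rcases hy with ⟨y1, rfl⟩ | ⟨ry, y1, y2, rfl⟩ | ⟨ry, y1, y2, rfl⟩ <;>
  rcases hz with ⟨z1, rfl⟩ | ⟨rz, z1, z2, rfl⟩ | ⟨rz, z1, z2, rfl⟩ <;>
  first
  | omega
  | (split_ifs <;> omega)

theorem w01a (p q : ℕ) (hp : 2 ≤ p) (hq : q + 1 < 3 * p) :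
    Wn (3 * p) (Vv p 1 (3 * p) 1 (q + 1) +
      Vv p 2 (3 * p) 2 (wr (3 * p) (q + p)) +
      Vv p 3 (3 * p - 1) 1 (wr (3 * p) (q + 2 * p))) := by
  have hx := Vv_cases p 1 (3 * p) 1 (q + 1)
  have hy := Vv_cases p 2 (3 * p) 2 (wr (3 * p) (q + p))
  have hz := Vv_cases p 3 (3 * p - 1) 1 (wr (3 * p) (q + 2 * p))
  have wy := wr_cases (3 * p) (q + p)
  have wz := wr_cases (3 * p) (q + 2 * p)
  generalize Vv p 3 (3 * p - 1) 1 (wr (3 * p) (q + 2 * p)) = Z at *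
  generalize Vv p 2 (3 * p) 2 (wr (3 * p) (q + p)) = Y at *
  generalize Vv p 1 (3 * p) 1 (q + 1) = X at *
  generalize wr (3 * p) (q + 2 * p) = b at *
  generalize wr (3 * p) (q + p) = a at *
  unfold Wn
  rcases wy with ⟨wy1, rfl⟩ | ⟨wy1, rfl⟩ <;> rcases wz with ⟨wz1, rfl⟩ | ⟨wz1, rfl⟩ <;>
  rcases hx with ⟨x1, rfl⟩ | ⟨rx, x1, x2, rfl⟩ | ⟨rx, x1, x2, rfl⟩ <;>
  rcases hy with ⟨y1, rfl⟩ | ⟨ry, y1, y2, rfl⟩ | ⟨ry, y1, y2, rfl⟩ <;>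
  rcases hz with ⟨z1, rfl⟩ | ⟨rz, z1, z2, rfl⟩ | ⟨rz, z1, z2, rfl⟩ <;>
  first
  | omega
  | (split_ifs <;> omega)

theorem w01b (p q : ℕ) (hp : 2 ≤ p) (hq : q + 1 = 3 * p) :
    Wn (3 * p) (Vv p 1 (3 * p) 1 0 +
      Vv p 2 (3 * p) 2 (wr (3 * p) (q + p)) +
      Vv p 3 (3 * p - 1) 1 (wr (3 * p) (q + 2 * p))) := by
  have hx := Vv_cases p 1 (3 * p) 1 0
  have hy := Vv_cases p 2 (3 * p) 2 (wr (3 * p) (q + p))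
  have hz := Vv_cases p 3 (3 * p - 1) 1 (wr (3 * p) (q + 2 * p))
  have wy := wr_cases (3 * p) (q + p)
  have wz := wr_cases (3 * p) (q + 2 * p)
  generalize Vv p 3 (3 * p - 1) 1 (wr (3 * p) (q + 2 * p)) = Z at *
  generalize Vv p 2 (3 * p) 2 (wr (3 * p) (q + p)) = Y at *
  generalize Vv p 1 (3 * p) 1 0 = X at *
  generalize wr (3 * p) (q + 2 * p) = b at *
  generalize wr (3 * p) (q + p) = a at *
  unfold Wn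
  rcases wy with ⟨wy1, rfl⟩ | ⟨wy1, rfl⟩ <;> rcases wz with ⟨wz1, rfl⟩ | ⟨wz1, rfl⟩ <;>
  rcases hx with ⟨x1, rfl⟩ | ⟨rx, x1, x2, rfl⟩ | ⟨rx, x1, x2, rfl⟩ <;>
  rcases hy with ⟨y1, rfl⟩ | ⟨ry, y1, y2, rfl⟩ | ⟨ry, y1, y2, rfl⟩ <;>
  rcases hz with ⟨z1, rfl⟩ | ⟨rz, z1, z2, rfl⟩ | ⟨rz, z1, z2, rfl⟩ <;>
  first
  | omega
  | (split_ifs <;> omega)

theorem w02a (p q : ℕ) (hp : 2 ≤ p) (hq : q + 1 < 3 * p) :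
    Wn (3 * p) (Vv p 1 (3 * p) 1 (q + 1) +
      Vv p 2 (3 * p) 2 (wr (3 * p) ((q + 1) + p)) +
      Vv p 3 (3 * p - 1) 1 (wr (3 * p) (q + 2 * p))) := by
  have hx := Vv_cases p 1 (3 * p) 1 (q + 1)
  have hy := Vv_cases p 2 (3 * p) 2 (wr (3 * p) ((q + 1) + p))
  have hz := Vv_cases p 3 (3 * p - 1) 1 (wr (3 * p) (q + 2 * p))
  have wy := wr_cases (3 * p) ((q + 1) + p)
  have wz := wr_cases (3 * p) (q + 2 * p)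
  generalize Vv p 3 (3 * p - 1) 1 (wr (3 * p) (q + 2 * p)) = Z at *
  generalize Vv p 2 (3 * p) 2 (wr (3 * p) ((q + 1) + p)) = Y at *
  generalize Vv p 1 (3 * p) 1 (q + 1) = X at *
  generalize wr (3 * p) (q + 2 * p) = b at *
  generalize wr (3 * p) ((q + 1) + p) = a at *
  unfold Wn
  rcases wy with ⟨wy1, rfl⟩ | ⟨wy1, rfl⟩ <;> rcases wz with ⟨wz1, rfl⟩ | ⟨wz1, rfl⟩ <;>
  rcases hx with ⟨x1, rfl⟩ | ⟨rx, x1, x2, rfl⟩ | ⟨rx, x1, x2, rfl⟩ <;>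
  rcases hy with ⟨y1, rfl⟩ | ⟨ry, y1, y2, rfl⟩ | ⟨ry, y1, y2, rfl⟩ <;>
  rcases hz with ⟨z1, rfl⟩ | ⟨rz, z1, z2, rfl⟩ | ⟨rz, z1, z2, rfl⟩ <;>
  first
  | omega
  | (split_ifs <;> omega)

theorem w02b (p q : ℕ) (hp : 2 ≤ p) (hq : q + 1 = 3 * p) :
    Wn (3 * p) (Vv p 1 (3 * p) 1 0 +
      Vv p 2 (3 * p) 2 (wr (3 * p) (0 + p)) +
      Vv p 3 (3 * p - 1) 1 (wr (3 * p) (q + 2 * p))) := by
  have hx := Vv_cases p 1 (3 * p) 1 0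
  have hy := Vv_cases p 2 (3 * p) 2 (wr (3 * p) (0 + p))
  have hz := Vv_cases p 3 (3 * p - 1) 1 (wr (3 * p) (q + 2 * p))
  have wy := wr_cases (3 * p) (0 + p)
  have wz := wr_cases (3 * p) (q + 2 * p)
  generalize Vv p 3 (3 * p - 1) 1 (wr (3 * p) (q + 2 * p)) = Z at *
  generalize Vv p 2 (3 * p) 2 (wr (3 * p) (0 + p)) = Y at *
  generalize Vv p 1 (3 * p) 1 0 = X at *
  generalize wr (3 * p) (q + 2 * p) = b at *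
  generalize wr (3 * p) (0 + p) = a at *
  unfold Wn
  rcases wy with ⟨wy1, rfl⟩ | ⟨wy1, rfl⟩ <;> rcases wz with ⟨wz1, rfl⟩ | ⟨wz1, rfl⟩ <;>
  rcases hx with ⟨x1, rfl⟩ | ⟨rx, x1, x2, rfl⟩ | ⟨rx, x1, x2, rfl⟩ <;>
  rcases hy with ⟨y1, rfl⟩ | ⟨ry, y1, y2, rfl⟩ | ⟨ry, y1, y2, rfl⟩ <;>
  rcases hz with ⟨z1, rfl⟩ | ⟨rz, z1, z2, rfl⟩ | ⟨rz, z1, z2, rfl⟩ <;>
  first
  | omega
  | (split_ifs <;> omega)

end Pool.Agent.K1H13.CY
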