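import Pool.Agent.K1H13.CY.Cyc
import Pool.Agent.K1H13.CY.Kot
import Pool.Agent.K1H13.CY.Win0
import Pool.Agent.K1H13.CY.Win1
import Pool.Agent.K1H13.CY.Win2

/-!
# The labeling of `k` cycles of length `3 m`
-/

set_option autoImplicit false

namespace Pool.Agent.K1H13.CY

open Finset

/-- the windows for all `m ≥ 4` -/
theorem windows (m q q1 : ℕ) (hm : 4 ≤ m) (hq : q < m)
    (h1 : (q + 1 < m ∧ q1 = q + 1) ∨ (q + 1 = m ∧ q1 = 0)) :
    Wn m (rr m 0 q + rr m 1 q + rr m 2 q) ∧ Wn m (rr m 0 q1 + rr m 1 q + rr m 2 q) ∧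
      Wn m (rr m 0 q1 + rr m 1 q1 + rr m 2 q) := by
  obtain ⟨p, hp⟩ : ∃ p, m = 3 * p ∨ m = 3 * p + 1 ∨ m = 3 * p + 2 := ⟨m / 3, by omega⟩
  rcases hp with hp | hp | hp
  · have e1 : m % 3 = 0 := by omega
    have e2 : m / 3 = p := by omega
    have f0 : ∀ q, rr m 0 q = Vv p 1 (3 * p) 1 q := by
      intro q; unfold rr; rw [if_pos e1, if_pos rfl, e2, hp]
    have f1 : ∀ q, rr m 1 q = Vv p 2 (3 * p) 2 (wr (3 * p) (q + p)) := by
      intro q; unfold rr; rw [if_pos e1, if_neg (by omega), if_pos rfl, e2, hp]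
    have f2 : ∀ q, rr m 2 q = Vv p 3 (3 * p - 1) 1 (wr (3 * p) (q + 2 * p)) := by
      intro q; unfold rr; rw [if_pos e1, if_neg (by omega), if_neg (by omega), e2, hp]
    rw [f0, f1, f2, f0, f1]
    subst hp
    rcases h1 with ⟨h1, rfl⟩ | ⟨h1, rfl⟩
    · exact ⟨w00 p q (by omega) hq, w01a p q (by omega) h1, w02a p q (by omega) h1⟩
    · exact ⟨w00 p q (by omega) hq, w01b p q (by omega) h1, w02b p q (by omega) h1⟩
  · have e0 : ¬ m % 3 = 0 := by omega
    have e1 : m % 3 = 1 := by omega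
    have e2 : m / 3 = p := by omega
    have e3 : m - 1 = 3 * p := by omega
    have f0 : ∀ q, rr m 0 q = Vv (p + 1) 1 (3 * p) 1 q := by
      intro q; unfold rr; rw [if_neg e0, if_pos e1, if_pos rfl, e2, e3]
    have f1 : ∀ q, rr m 1 q = Vv (p + 1) 1 (3 * p) 1 (wr (3 * p + 1) (q + 2 * p + 1)) := by
      intro q; unfold rr; rw [if_neg e0, if_pos e1, if_neg (by omega), if_pos rfl, e2, e3, hp]
    have f2 : ∀ q, rr m 2 q = Vv (p + 1) 1 (3 * p) 1 (wr (3 * p + 1) (q + p + 1)) := by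
      intro q; unfold rr
      rw [if_neg e0, if_pos e1, if_neg (by omega), if_neg (by omega), e2, e3, hp]
    rw [f0, f1, f2, f0, f1]
    subst hp
    rcases h1 with ⟨h1, rfl⟩ | ⟨h1, rfl⟩
    · exact ⟨w10 p q (by omega) hq, w11a p q (by omega) h1, w12a p q (by omega) h1⟩
    · exact ⟨w10 p q (by omega) hq, w11b p q (by omega) h1, w12b p q (by omega) h1⟩
  · have e0 : ¬ m % 3 = 0 := by omega
    have e1 : ¬ m % 3 = 1 := by omega
    have e2 : m / 3 = p := by omega
    have f0 : ∀ q, rr m 0 q = Vv (p + 1) 1 (3 * p + 2) 2 q := by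
      intro q; unfold rr; rw [if_neg e0, if_neg e1, if_pos rfl, e2, hp]
    have f1 : ∀ q, rr m 1 q = Vv (p + 1) 1 (3 * p + 2) 2 (wr (3 * p + 2) (q + p + 1)) := by
      intro q; unfold rr; rw [if_neg e0, if_neg e1, if_neg (by omega), if_pos rfl, e2, hp]
    have f2 : ∀ q, rr m 2 q = Vv (p + 1) 1 (3 * p + 2) 2 (wr (3 * p + 2) (q + 2 * p + 2)) := by
      intro q; unfold rr
      rw [if_neg e0, if_neg e1, if_neg (by omega), if_neg (by omega), e2, hp]
    rw [f0, f1, f2, f0, f1]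
    subst hp
    rcases h1 with ⟨h1, rfl⟩ | ⟨h1, rfl⟩
    · exact ⟨w20 p q (by omega) hq, w21a p q (by omega) h1, w22a p q (by omega) h1⟩
    · exact ⟨w20 p q (by omega) hq, w21b p q (by omega) h1, w22b p q (by omega) h1⟩

/-- the label of the vertex `a` of the cycle `j` -/
def lab (k m j a : ℕ) : ℕ := ((a % 3) * k + kk k (a % 3) j) * m + rr m (a % 3) (a / 3)

theorem lab_eq (k m j c q : ℕ) (hc : c < 3) :
    lab k m j (3 * q + c) = (c * k + kk k c j) * m + rr m c q := by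
  unfold lab
  have e1 : (3 * q + c) % 3 = c := by omega
  have e2 : (3 * q + c) / 3 = q := by omega
  rw [e1, e2]

theorem lab_range (k m j a : ℕ) (hk : k % 2 = 1) (hj : j < k) (ha : a < 3 * m) :
    1 ≤ lab k m j a ∧ lab k m j a ≤ k * (3 * m) := by
  have h1 := (rr_bij m (a % 3) (a / 3) (a / 3) (by omega) (by omega) (by omega)).1
  have h2 := kk_lt k (a % 3) j hk hj
  have h3 : (a % 3) * k + kk k (a % 3) j + 1 ≤ 3 * k := by
    have : a % 3 < 3 := by omega
    have h4 : (a % 3) * k ≤ 2 * k := Nat.mul_le_mul_right k (by omega)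
    omega
  have h4 := Nat.mul_le_mul_right m h3
  have h5 : 3 * k * m = k * (3 * m) := by ring
  rw [Nat.add_mul, one_mul, h5] at h4
  unfold lab
  exact ⟨by omega, by omega⟩

theorem lab_inj (k m j a j' a' : ℕ) (hk : k % 2 = 1) (hj : j < k) (ha : a < 3 * m) (hj' : j' < k)
    (ha' : a' < 3 * m) (h : lab k m j a = lab k m j' a') : j = j' ∧ a = a' := by
  have h1 := (rr_bij m (a % 3) (a / 3) (a / 3) (by omega) (by omega) (by omega)).1
  have h1' := (rr_bij m (a' % 3) (a' / 3) (a' / 3) (by omega) (by omega) (by omega)).1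
  have h2 := kk_lt k (a % 3) j hk hj
  have h2' := kk_lt k (a' % 3) j' hk hj'
  unfold lab at h
  obtain ⟨h3, h4⟩ := dm (m := m) (a := (a % 3) * k + kk k (a % 3) j)
    (a' := (a' % 3) * k + kk k (a' % 3) j') (b := rr m (a % 3) (a / 3) - 1)
    (b' := rr m (a' % 3) (a' / 3) - 1) (by omega) (by omega) (by omega)
  obtain ⟨h5, h6⟩ := dm h2 h2' h3
  rw [h5] at h6 h4 h1
  refine ⟨kk_inj k _ j j' hk hj hj' h6, ?_⟩
  have h7 := (rr_bij m (a' % 3) (a / 3) (a' / 3) (by omega) (by omega) (by omega)).2 (by omega)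
  omega

theorem tot (k m x y z S : ℕ) (hk : k % 2 = 1) (h : x + y + z = 3 * (k / 2)) :
    2 * ((0 * k + x) * m + (1 * k + y) * m + (2 * k + z) * m + S) + 3 * m = 9 * (k * m) + 2 * S := by
  have e : (0 * k + x) * m + (1 * k + y) * m + (2 * k + z) * m = (3 * k + (x + y + z)) * m := by
    ring
  rw [e, h]
  obtain ⟨h', rfl⟩ : ∃ h', k = 2 * h' + 1 := ⟨k / 2, by omega⟩
  have e2 : (2 * h' + 1) / 2 = h' := by omega
  rw [e2]
  ring

/-- the sums -/
theorem lab_sum (k m j a b c : ℕ) (hk : k % 2 = 1) (hm : 4 ≤ m) (hj : j < k) (ha : a < 3 * m)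
    (hb : b = if a + 1 < 3 * m then a + 1 else 0) (hc : c = if b + 1 < 3 * m then b + 1 else 0) :
    3 * (k * (3 * m) + 1) ≤ 2 * (lab k m j a + lab k m j b + lab k m j c) +
        (if m % 2 = 0 then 3 else 4) ∧
      2 * (lab k m j a + lab k m j b + lab k m j c) ≤ 3 * (k * (3 * m) + 1) +
        (if m % 2 = 0 then 3 else 4) := by
  have hs := kk_sum k j hk hj
  set q := a / 3 with hq
  have hqm : q < m := by omega
  set q1 := (if q + 1 < m then q + 1 else 0) with hq1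
  have h1 : (q + 1 < m ∧ q1 = q + 1) ∨ (q + 1 = m ∧ q1 = 0) := by
    rw [hq1]; split_ifs <;> omega
  obtain ⟨W0, W1, W2⟩ := windows m q q1 hm hqm h1
  have e9 : 3 * (k * (3 * m) + 1) = 9 * (k * m) + 3 := by ring
  rw [e9]
  have ht := tot k m (kk k 0 j) (kk k 1 j) (kk k 2 j)
  have h3 : a % 3 = 0 ∨ a % 3 = 1 ∨ a % 3 = 2 := by omega
  rcases h3 with h3 | h3 | h3
  · have ea : a = 3 * q + 0 := by omega
    have eb : b = 3 * q + 1 := by rw [hb, if_pos (by omega)]; omega
    have ec : c = 3 * q + 2 := by rw [hc, if_pos (by omega)]; omega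
    rw [ea, eb, ec, lab_eq k m j 0 q (by omega), lab_eq k m j 1 q (by omega),
      lab_eq k m j 2 q (by omega)]
    have := ht (rr m 0 q + rr m 1 q + rr m 2 q) hk hs
    unfold Wn at W0
    split_ifs at W0 ⊢ <;> omega
  · have ea : a = 3 * q + 1 := by omega
    have eb : b = 3 * q + 2 := by rw [hb, if_pos (by omega)]; omega
    have ec : c = 3 * q1 + 0 := by rw [hc]; split_ifs <;> omega
    rw [ea, eb, ec, lab_eq k m j 0 q1 (by omega), lab_eq k m j 1 q (by omega),
      lab_eq k m j 2 q (by omega)]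
    have := ht (rr m 0 q1 + rr m 1 q + rr m 2 q) hk hs
    unfold Wn at W1
    split_ifs at W1 ⊢ <;> omega
  · have ea : a = 3 * q + 2 := by omega
    have eb : b = 3 * q1 + 0 := by rw [hb]; split_ifs <;> omega
    have ec : c = 3 * q1 + 1 := by rw [hc, if_pos (by omega)]; omega
    rw [ea, eb, ec, lab_eq k m j 0 q1 (by omega), lab_eq k m j 1 q1 (by omega),
      lab_eq k m j 2 q (by omega)]
    have := ht (rr m 0 q1 + rr m 1 q1 + rr m 2 q) hk hs
    unfold Wn at W2
    split_ifs at W2 ⊢ <;> omega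

theorem val_succ (N : ℕ) [NeZero N] (hN : 1 < N) (x : ZMod N) :
    (x + 1).val = if x.val + 1 < N then x.val + 1 else 0 := by
  rw [ZMod.val_add, ZMod.val_one_eq_one_mod, Nat.mod_eq_of_lt hN]
  have := ZMod.val_lt x
  split_ifs with h
  · exact Nat.mod_eq_of_lt h
  · have : x.val + 1 = N := by omega
    rw [this, Nat.mod_self]

theorem labeling (k m : ℕ) (hk : k % 2 = 1) (hm : 4 ≤ m) :
    ∃ f : (Σ _ : Fin k, ZMod (3 * m)) → ℕ, IsLabeling f ∧
      ∀ v, 3 * (k * (3 * m) + 1) ≤ 2 * closedSum (cycles fun _ : Fin k => 3 * m) f v +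
          (if m % 2 = 0 then 3 else 4) ∧
        2 * closedSum (cycles fun _ : Fin k => 3 * m) f v ≤ 3 * (k * (3 * m) + 1) +
          (if m % 2 = 0 then 3 else 4) := by
  classical
  have : NeZero (3 * m) := ⟨by omega⟩
  have hcard : Fintype.card (Σ _ : Fin k, ZMod (3 * m)) = k * (3 * m) := by
    rw [Fintype.card_sigma]
    simp [ZMod.card]
  refine ⟨fun v => lab k m v.1 v.2.val, ?_, ?_⟩
  · unfold IsLabeling
    rw [Nat.card_eq_fintype_card, hcard]
    have hinj : Function.Injective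
        (fun v : (Σ _ : Fin k, ZMod (3 * m)) => lab k m v.1 v.2.val) := by
      rintro ⟨j, x⟩ ⟨j', x'⟩ h
      obtain ⟨h1, h2⟩ := lab_inj k m j x.val j' x'.val hk j.2 (ZMod.val_lt x) j'.2
        (ZMod.val_lt x') h
      have h3 : j = j' := Fin.ext h1
      subst h3
      rw [ZMod.val_injective _ h2]
    have hr : ∀ v : (Σ _ : Fin k, ZMod (3 * m)), 1 ≤ lab k m v.1 v.2.val ∧
        lab k m v.1 v.2.val ≤ k * (3 * m) := fun v =>
      lab_range k m v.1 v.2.val hk v.1.2 (ZMod.val_lt v.2)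
    have himg : (univ : Finset (Σ _ : Fin k, ZMod (3 * m))).image
        (fun v => lab k m v.1 v.2.val) = Icc 1 (k * (3 * m)) := by
      apply eq_of_subset_of_card_le
      · intro x hx
        obtain ⟨v, _, rfl⟩ := mem_image.1 hx
        exact mem_Icc.2 (hr v)
      · rw [card_image_of_injective _ hinj, card_univ, hcard, Nat.card_Icc]
        omega
    refine ⟨fun v _ => Set.mem_Icc.2 (hr v), fun v _ w _ h => hinj h, fun x hx => ?_⟩
    have hx' : x ∈ Icc 1 (k * (3 * m)) := mem_Icc.2 (Set.mem_Icc.1 hx)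
    rw [← himg, mem_image] at hx'
    obtain ⟨v, _, hv⟩ := hx'
    exact ⟨v, Set.mem_univ v, hv⟩
  · intro v
    obtain ⟨u, rfl⟩ := (nx fun _ : Fin k => 3 * m).surjective v
    rw [closedSum_eq (fun _ : Fin k => 3 * m) (fun _ => by omega), ia]
    obtain ⟨j, x⟩ := u
    rw [nx_apply, nx_apply]
    exact lab_sum k m j x.val (x + 1).val (x + 1 + 1).val hk hm j.2 (ZMod.val_lt x)
      (val_succ _ (by omega) x) (val_succ _ (by omega) (x + 1))

/-- **the exact values** -/
theorem exact_values (k t : ℕ) (hk : Odd k) (h3 : 3 ∣ t) :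
    (Even t → 12 ≤ t → NS (cycles fun _ : Fin k => t) = (3 * (k * t) + 6) / 2 ∧
      NSminus (cycles fun _ : Fin k => t) = 3 * (k * t) / 2 ∧
      NSspread (cycles fun _ : Fin k => t) = 3) ∧
    (Odd t → 21 ≤ t → NS (cycles fun _ : Fin k => t) = 3 * (k * t + 1) / 2 + 2 ∧
      NSminus (cycles fun _ : Fin k => t) = 3 * (k * t + 1) / 2 - 2 ∧
      NSspread (cycles fun _ : Fin k => t) = 4) := by
  classical
  obtain ⟨m, rfl⟩ := h3
  have hk0 : 0 < k := hk.pos
  have hk2 : k % 2 = 1 := Nat.odd_iff.1 hk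
  have hgcd : Nat.gcd 3 (3 * m) = 3 := Nat.gcd_eq_left (Dvd.intro m rfl)
  have up : 4 ≤ m → (∀ f, IsLabeling f → ∃ v,
      2 * closedSum (cycles fun _ : Fin k => 3 * m) f v ≤ 3 * (k * (3 * m) + 1)) →
      2 * NS (cycles fun _ : Fin k => 3 * m) ≤ 3 * (k * (3 * m) + 1) +
        (if m % 2 = 0 then 3 else 4) ∧
      3 * (k * (3 * m) + 1) ≤ 2 * NSminus (cycles fun _ : Fin k => 3 * m) +
        (if m % 2 = 0 then 3 else 4) ∧
      NSspread (cycles fun _ : Fin k => 3 * m) ≤ (if m % 2 = 0 then 3 else 4) := by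
    intro hm hB
    have : NeZero (3 * m) := ⟨by omega⟩
    have : Nonempty (Σ _ : Fin k, ZMod (3 * m)) := ⟨⟨⟨0, hk0⟩, 0⟩⟩
    obtain ⟨f, hf, hw⟩ := labeling k m hk2 hm
    obtain ⟨⟨M, hM⟩, ⟨m0, hm0⟩⟩ := exists_max _ (closedSum (cycles fun _ : Fin k => 3 * m) f)
    obtain ⟨v, hv⟩ := hM.1
    obtain ⟨w, hw'⟩ := hm0.1
    have a1 : NS (cycles fun _ : Fin k => 3 * m) ≤ M := Nat.sInf_le ⟨f, hf, hM⟩
    have a2 : m0 ≤ NSminus (cycles fun _ : Fin k => 3 * m) := by
      refine le_csSup ⟨3 * (k * (3 * m) + 1), ?_⟩ ⟨f, hf, hm0⟩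
      rintro x ⟨g, hg, hx⟩
      obtain ⟨y, hy⟩ := hB g hg
      have := hx.2 ⟨y, rfl⟩
      omega
    have a3 : NSspread (cycles fun _ : Fin k => 3 * m) ≤ M - m0 :=
      Nat.sInf_le ⟨f, M, m0, hf, hM, hm0, rfl⟩
    have b1 := (hw v).2
    have b2 := (hw w).1
    rw [hv] at b1
    rw [hw'] at b2
    split_ifs at b1 b2 ⊢ <;> omega
  constructor
  · intro he h12
    have hm : 4 ≤ m := by omega
    have hm2 : m % 2 = 0 := by
      have := Nat.even_iff.1 he
      omega
    have hn : Even (k * (3 * m)) := Even.mul_left he k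
    have hn2 := Nat.even_iff.1 hn
    have hq : k * 12 ≤ k * (3 * m) := Nat.mul_le_mul_left k h12
    have L := (final (fun _ : Fin k => 3 * m) (fun _ => by omega)).2
    have Bd := fun f hf => (bounds (fun _ : Fin k => 3 * m) (fun _ => by omega) f hf).2
    simp only [sum_const, card_univ, Fintype.card_fin, smul_eq_mul, hgcd] at L Bd
    have L1 := L hn (by omega)
    have U := up hm (fun f hf => by
      obtain ⟨v, hv⟩ := (Bd f hf hn (by omega)).2
      exact ⟨v, by omega⟩)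
    rw [if_pos hm2] at U
    omega
  · intro ho h21
    have hm : 7 ≤ m := by omega
    have hm2 : ¬ m % 2 = 0 := by
      have := Nat.odd_iff.1 ho
      omega
    have hn : Odd (k * (3 * m)) := Odd.mul hk ho
    have hn2 := Nat.odd_iff.1 hn
    have hq : k * 21 ≤ k * (3 * m) := Nat.mul_le_mul_left k h21
    have L := (final (fun _ : Fin k => 3 * m) (fun _ => by omega)).1
    have Bd := fun f hf => (bounds (fun _ : Fin k => 3 * m) (fun _ => by omega) f hf).1
    simp only [sum_const, card_univ, Fintype.card_fin, smul_eq_mul, hgcd] at L Bd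
    have L1 := L hn (by omega)
    have U := up (by omega) (fun f hf => by
      obtain ⟨v, hv⟩ := (Bd f hf hn (by omega)).2
      exact ⟨v, by omega⟩)
    rw [if_neg hm2] at U
    omega

end Pool.Agent.K1H13.CY
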