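import Pool.Agent.K1H13.CY.Dich

/-!
# Disjoint unions of triangles
-/

set_option autoImplicit false

namespace Pool.Agent.K1H13.CY

open Finset

variable {k : ℕ}

theorem z3 : ∀ x y : ZMod 3, (y = x ∨ ¬x = y ∧ (y = x + 1 ∨ x = y + 1)) ↔
    (y = 0 ∨ y = 1 ∨ y = 2) := by decide

theorem closedSum_tri (f : (Σ _ : Fin k, ZMod 3) → ℕ) (j : Fin k) (x : ZMod 3) :
    closedSum (cycles fun _ : Fin k => 3) f ⟨j, x⟩ = f ⟨j, 0⟩ + f ⟨j, 1⟩ + f ⟨j, 2⟩ := by
  classical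
  have hset : (insert (⟨j, x⟩ : Σ _ : Fin k, ZMod 3)
      ((cycles fun _ : Fin k => 3).neighborSet ⟨j, x⟩) : Set (Σ _ : Fin k, ZMod 3)) =
      (({⟨j, 0⟩, ⟨j, 1⟩, ⟨j, 2⟩} : Finset (Σ _ : Fin k, ZMod 3)) :
        Set (Σ _ : Fin k, ZMod 3)) := by
    ext w
    obtain ⟨i, y⟩ := w
    simp only [Set.mem_insert_iff, SimpleGraph.mem_neighborSet, cycles, SimpleGraph.fromRel_adj,
      coe_insert, coe_singleton, Set.mem_singleton_iff, Sigma.mk.injEq, heq_eq_eq, ne_eq]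
    by_cases hij : i = j
    · subst hij
      simp only [true_and]
      exact z3 x y
    · have hji : ¬ j = i := fun h => hij h.symm
      simp [hij, hji]
  unfold closedSum
  rw [hset, finsum_mem_coe_finset]
  have d01 : (0 : ZMod 3) ≠ 1 := by decide
  have d02 : (0 : ZMod 3) ≠ 2 := by decide
  have d12 : (1 : ZMod 3) ≠ 2 := by decide
  rw [sum_insert (by simp [d01, d02]), sum_insert (by simp [d12]), sum_singleton]
  ring

theorem total (f : (Σ _ : Fin k, ZMod 3) → ℕ) (hf : IsLabeling f) :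
    2 * ∑ j, (f ⟨j, 0⟩ + f ⟨j, 1⟩ + f ⟨j, 2⟩) = k * (3 * (3 * k + 1)) := by
  classical
  have hcard : Fintype.card (Σ _ : Fin k, ZMod 3) = 3 * k := by
    rw [Fintype.card_sigma]
    simp [ZMod.card, mul_comm]
  unfold IsLabeling at hf
  rw [Nat.card_eq_fintype_card, hcard] at hf
  have h1 : ∑ v, f v = ∑ j : Fin k, (f ⟨j, 0⟩ + f ⟨j, 1⟩ + f ⟨j, 2⟩) := by
    rw [Fintype.sum_sigma]
    refine sum_congr rfl fun j _ => ?_
    exact Fin.sum_univ_three (fun x : Fin 3 => f ⟨j, x⟩)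
  have hm : ∀ v, 1 ≤ f v ∧ f v ≤ 3 * k := fun v => Set.mem_Icc.1 (hf.mapsTo (Set.mem_univ v))
  have h2 := sum_g (fun v => f v - 1) (3 * k) hcard (fun v w h => by
    have e1 := hm v
    have e2 := hm w
    simp only at h
    exact hf.injOn (Set.mem_univ _) (Set.mem_univ _) (by omega))
    (fun v => by have := hm v; omega)
  have h3 : (∑ v, (f v - 1)) + 3 * k = ∑ v, f v := by
    have : ∑ v : (Σ _ : Fin k, ZMod 3), 1 = 3 * k := by simp [hcard]
    rw [← this, ← sum_add_distrib]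
    exact sum_congr rfl fun v _ => Nat.sub_add_cancel (hm v).1
  rw [← h1, ← h3]
  rcases Nat.eq_zero_or_pos k with h0 | h0
  · subst h0; simp
  have h4 : 3 * k * (3 * k - 1) + 3 * k = 3 * k * (3 * k) := by
    have : 3 * k * (3 * k - 1) + 3 * k = 3 * k * ((3 * k - 1) + 1) := by ring
    rw [this, Nat.sub_add_cancel (by omega)]
  have h5 : k * (3 * (3 * k + 1)) = 3 * k * (3 * k) + 3 * k := by ring
  omega

theorem avg (hk : 0 < k) (f : (Σ _ : Fin k, ZMod 3) → ℕ) (hf : IsLabeling f) :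
    (∃ v, 3 * (3 * k + 1) ≤ 2 * closedSum (cycles fun _ : Fin k => 3) f v) ∧
      ∃ v, 2 * closedSum (cycles fun _ : Fin k => 3) f v ≤ 3 * (3 * k + 1) := by
  have ht := total f hf
  have hne : (univ : Finset (Fin k)).Nonempty := ⟨⟨0, hk⟩, mem_univ _⟩
  constructor
  · by_contra hno
    push Not at hno
    have h1 : ∑ j : Fin k, 2 * (f ⟨j, 0⟩ + f ⟨j, 1⟩ + f ⟨j, 2⟩) <
        ∑ _j : Fin k, 3 * (3 * k + 1) := by
      refine sum_lt_sum_of_nonempty hne fun j _ => ?_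
      have := hno ⟨j, 0⟩
      rwa [closedSum_tri] at this
    have h2 : ∑ j : Fin k, 2 * (f ⟨j, 0⟩ + f ⟨j, 1⟩ + f ⟨j, 2⟩) = k * (3 * (3 * k + 1)) := by
      rw [← mul_sum, ht]
    rw [h2, sum_const, card_univ, Fintype.card_fin, smul_eq_mul] at h1
    exact lt_irrefl _ h1
  · by_contra hno
    push Not at hno
    have h1 : ∑ _j : Fin k, 3 * (3 * k + 1) <
        ∑ j : Fin k, 2 * (f ⟨j, 0⟩ + f ⟨j, 1⟩ + f ⟨j, 2⟩) := by
      refine sum_lt_sum_of_nonempty hne fun j _ => ?_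
      have := hno ⟨j, 0⟩
      rwa [closedSum_tri] at this
    have h2 : ∑ j : Fin k, 2 * (f ⟨j, 0⟩ + f ⟨j, 1⟩ + f ⟨j, 2⟩) = k * (3 * (3 * k + 1)) := by
      rw [← mul_sum, ht]
    rw [h2, sum_const, card_univ, Fintype.card_fin, smul_eq_mul] at h1
    exact lt_irrefl _ h1

/-- the rows -/
def kt (k c j : ℕ) : ℕ := if k % 2 = 1 then kk k c j else ke k c j

theorem kt_lt (k c j : ℕ) (hj : j < k) : kt k c j < k := by
  unfold kt
  split_ifs with h
  · exact kk_lt k c j h hj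
  · exact ke_lt k c j (by omega) hj

theorem kt_inj (k c j j' : ℕ) (hj : j < k) (hj' : j' < k) (h : kt k c j = kt k c j') : j = j' := by
  unfold kt at h
  split_ifs at h with h0
  · exact kk_inj k c j j' h0 hj hj' h
  · exact ke_inj k c j j' (by omega) hj hj' h

theorem labeling_tri (hk : 0 < k) : ∃ f : (Σ _ : Fin k, ZMod 3) → ℕ, IsLabeling f ∧
    ∀ v, 3 * (3 * k + 1) ≤ 2 * closedSum (cycles fun _ : Fin k => 3) f v + (if k % 2 = 1 then 0 else 1) ∧
      2 * closedSum (cycles fun _ : Fin k => 3) f v ≤ 3 * (3 * k + 1) +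
        (if k % 2 = 1 then 0 else 1) := by
  classical
  have hcard : Fintype.card (Σ _ : Fin k, ZMod 3) = 3 * k := by
    rw [Fintype.card_sigma]
    simp [ZMod.card, mul_comm]
  set F : (Σ _ : Fin k, ZMod 3) → ℕ := fun v => v.2.val * k + kt k v.2.val v.1 + 1 with hF
  have hr : ∀ v, 1 ≤ F v ∧ F v ≤ 3 * k := by
    rintro ⟨j, x⟩
    simp only [hF]
    have h1 := kt_lt k x.val j j.2
    have h2 := ZMod.val_lt x
    have h4 : x.val * k ≤ 2 * k := Nat.mul_le_mul_right k (by omega)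
    exact ⟨by omega, by omega⟩
  have hinj : Function.Injective F := by
    rintro ⟨j, x⟩ ⟨j', x'⟩ h
    simp only [hF] at h
    have h' : x.val * k + kt k x.val j = x'.val * k + kt k x'.val j' := by omega
    obtain ⟨h1, h2⟩ := dm (kt_lt k x.val j j.2) (kt_lt k x'.val j' j'.2) h'
    have h3 := ZMod.val_injective 3 h1
    subst h3
    have h4 := kt_inj k _ _ _ j.2 j'.2 h2
    rw [Fin.ext h4]
  refine ⟨F, ?_, ?_⟩
  · unfold IsLabeling
    rw [Nat.card_eq_fintype_card, hcard]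
    have himg : (univ : Finset (Σ _ : Fin k, ZMod 3)).image F = Icc 1 (3 * k) := by
      apply eq_of_subset_of_card_le
      · intro x hx
        obtain ⟨v, _, rfl⟩ := mem_image.1 hx
        exact mem_Icc.2 (hr v)
      · rw [card_image_of_injective _ hinj, card_univ, hcard, Nat.card_Icc]
        omega
    refine ⟨fun v _ => Set.mem_Icc.2 (hr v), fun v _ w _ h => hinj h, fun x hx => ?_⟩
    have hx' : x ∈ Icc 1 (3 * k) := mem_Icc.2 (Set.mem_Icc.1 hx)
    rw [← himg, mem_image] at hx'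
    obtain ⟨v, _, hv⟩ := hx'
    exact ⟨v, Set.mem_univ v, hv⟩
  · rintro ⟨j, x⟩
    rw [closedSum_tri]
    have e0 : F ⟨j, 0⟩ = 0 * k + kt k 0 j + 1 := rfl
    have e1 : F ⟨j, 1⟩ = 1 * k + kt k 1 j + 1 := rfl
    have e2 : F ⟨j, 2⟩ = 2 * k + kt k 2 j + 1 := rfl
    rw [e0, e1, e2]
    unfold kt
    split_ifs with h
    · have := kk_sum k j h j.2
      omega
    · have := ke_sum k j (by omega) j.2
      omega

/-- **the values for triangles** -/
theorem tri_values (hk : 0 < k) :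
    (Odd k → NS (cycles fun _ : Fin k => 3) = 3 * (3 * k + 1) / 2 ∧
      NSminus (cycles fun _ : Fin k => 3) = 3 * (3 * k + 1) / 2 ∧
      NSspread (cycles fun _ : Fin k => 3) = 0) ∧
    (Even k → NS (cycles fun _ : Fin k => 3) = (9 * k + 4) / 2 ∧
      NSminus (cycles fun _ : Fin k => 3) = (9 * k + 2) / 2 ∧
      NSspread (cycles fun _ : Fin k => 3) = 1) := by
  classical
  have hne : Nonempty (Σ _ : Fin k, ZMod 3) := ⟨⟨⟨0, hk⟩, 0⟩⟩
  obtain ⟨f, hf, hw⟩ := labeling_tri hk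
  obtain ⟨⟨M, hM⟩, ⟨m0, hm0⟩⟩ := exists_max _ (closedSum (cycles fun _ : Fin k => 3) f)
  obtain ⟨v, hv⟩ := hM.1
  obtain ⟨w, hw'⟩ := hm0.1
  have b1 := (hw v).2
  have b2 := (hw w).1
  rw [hv] at b1
  rw [hw'] at b2
  have low1 : ∀ g, IsLabeling g → ∀ N, IsGreatest (Set.range
      (closedSum (cycles fun _ : Fin k => 3) g)) N → 3 * (3 * k + 1) ≤ 2 * N := by
    intro g hg N hN
    obtain ⟨y, hy⟩ := (avg hk g hg).1
    have := hN.2 ⟨y, rfl⟩
    omega
  have low2 : ∀ g, IsLabeling g → ∀ N, IsLeast (Set.range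
      (closedSum (cycles fun _ : Fin k => 3) g)) N → 2 * N ≤ 3 * (3 * k + 1) := by
    intro g hg N hN
    obtain ⟨y, hy⟩ := (avg hk g hg).2
    have := hN.2 ⟨y, rfl⟩
    omega
  have a1 : NS (cycles fun _ : Fin k => 3) ≤ M := Nat.sInf_le ⟨f, hf, hM⟩
  have a1' : 3 * (3 * k + 1) ≤ 2 * NS (cycles fun _ : Fin k => 3) := by
    obtain ⟨g, hg, hN⟩ : NS (cycles fun _ : Fin k => 3) ∈ {M | ∃ f : (Σ _ : Fin k, ZMod 3) → ℕ,
      IsLabeling f ∧ IsGreatest (Set.range (closedSum (cycles fun _ : Fin k => 3) f)) M} :=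
      Nat.sInf_mem ⟨M, f, hf, hM⟩
    exact low1 g hg _ hN
  have hbdd : BddAbove {m | ∃ f : (Σ _ : Fin k, ZMod 3) → ℕ,
      IsLabeling f ∧ IsLeast (Set.range (closedSum (cycles fun _ : Fin k => 3) f)) m} := by
    refine ⟨3 * (3 * k + 1), ?_⟩
    rintro x ⟨g, hg, hx⟩
    have := low2 g hg x hx
    omega
  have a2 : m0 ≤ NSminus (cycles fun _ : Fin k => 3) := le_csSup hbdd ⟨f, hf, hm0⟩
  have a2' : 2 * NSminus (cycles fun _ : Fin k => 3) ≤ 3 * (3 * k + 1) := by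
    obtain ⟨g, hg, hN⟩ : NSminus (cycles fun _ : Fin k => 3) ∈
      {m | ∃ f : (Σ _ : Fin k, ZMod 3) → ℕ,
      IsLabeling f ∧ IsLeast (Set.range (closedSum (cycles fun _ : Fin k => 3) f)) m} :=
      Nat.sSup_mem ⟨m0, f, hf, hm0⟩ hbdd
    exact low2 g hg _ hN
  have a3 : NSspread (cycles fun _ : Fin k => 3) ≤ M - m0 :=
    Nat.sInf_le ⟨f, M, m0, hf, hM, hm0, rfl⟩
  obtain ⟨g, M1, m1, hg, hM1, hm1, hd⟩ : NSspread (cycles fun _ : Fin k => 3) ∈
      {d | ∃ (f : (Σ _ : Fin k, ZMod 3) → ℕ) (M m : ℕ), IsLabeling f ∧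
        IsGreatest (Set.range (closedSum (cycles fun _ : Fin k => 3) f)) M ∧
        IsLeast (Set.range (closedSum (cycles fun _ : Fin k => 3) f)) m ∧ d = M - m} :=
    Nat.sInf_mem ⟨M - m0, f, M, m0, hf, hM, hm0, rfl⟩
  have g1 := low1 g hg _ hM1
  have g2 := low2 g hg _ hm1
  constructor
  · intro ho
    have ho' := Nat.odd_iff.1 ho
    rw [if_pos ho'] at b1 b2
    omega
  · intro he
    have he' := Nat.even_iff.1 he
    rw [if_neg (by omega)] at b1 b2
    omega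

end Pool.Agent.K1H13.CY
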