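import Mathlib

/-!
# The labeling of one cycle of length `3 m`: three phases
-/

set_option autoImplicit false

namespace Pool.Agent.K1H13.CY

/-- up by three, then down through the other values -/
def Vv (nu st D e q : ℕ) : ℕ :=
  if q < nu then st + 3 * q else D - 3 * ((q - nu) / 2) - (if (q - nu) % 2 = 0 then 0 else e)

/-- cyclic shift -/
def wr (m a : ℕ) : ℕ := if a < m then a else a - m

/-- the label (in the interval of its class) of the vertex `3 q + c` -/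
def rr (m c q : ℕ) : ℕ :=
  if m % 3 = 0 then
    (if c = 0 then Vv (m / 3) 1 m 1 q
     else if c = 1 then Vv (m / 3) 2 m 2 (wr m (q + m / 3))
     else Vv (m / 3) 3 (m - 1) 1 (wr m (q + 2 * (m / 3))))
  else if m % 3 = 1 then
    (if c = 0 then Vv (m / 3 + 1) 1 (m - 1) 1 q
     else if c = 1 then Vv (m / 3 + 1) 1 (m - 1) 1 (wr m (q + 2 * (m / 3) + 1))
     else Vv (m / 3 + 1) 1 (m - 1) 1 (wr m (q + m / 3 + 1)))
  else
    (if c = 0 then Vv (m / 3 + 1) 1 m 2 q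
     else if c = 1 then Vv (m / 3 + 1) 1 m 2 (wr m (q + m / 3 + 1))
     else Vv (m / 3 + 1) 1 m 2 (wr m (q + 2 * (m / 3) + 2)))

theorem wr_lt (m a : ℕ) (h : a < 2 * m) : wr m a < m := by
  unfold wr; split_ifs <;> omega

theorem wr_inj (m b q q' : ℕ) (_hb : b ≤ m) (h1 : q < m) (h2 : q' < m)
    (h : wr m (q + b) = wr m (q' + b)) : q = q' := by
  unfold wr at h; split_ifs at h <;> omega

/-- bijectivity of the building blocks -/
theorem V1 (p q q' : ℕ) (hq : q < 3 * p) (hq' : q' < 3 * p) :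
    (1 ≤ Vv p 1 (3 * p) 1 q ∧ Vv p 1 (3 * p) 1 q ≤ 3 * p) ∧
    (Vv p 1 (3 * p) 1 q = Vv p 1 (3 * p) 1 q' → q = q') := by
  unfold Vv
  constructor
  · split_ifs <;> omega
  · intro h; split_ifs at h <;> omega

theorem V2 (p q q' : ℕ) (hq : q < 3 * p) (hq' : q' < 3 * p) :
    (1 ≤ Vv p 2 (3 * p) 2 q ∧ Vv p 2 (3 * p) 2 q ≤ 3 * p) ∧
    (Vv p 2 (3 * p) 2 q = Vv p 2 (3 * p) 2 q' → q = q') := by
  unfold Vv
  constructor
  · split_ifs <;> omega
  · intro h; split_ifs at h <;> omega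

theorem V3 (p q q' : ℕ) (hq : q < 3 * p) (hq' : q' < 3 * p) :
    (1 ≤ Vv p 3 (3 * p - 1) 1 q ∧ Vv p 3 (3 * p - 1) 1 q ≤ 3 * p) ∧
    (Vv p 3 (3 * p - 1) 1 q = Vv p 3 (3 * p - 1) 1 q' → q = q') := by
  unfold Vv
  constructor
  · split_ifs <;> omega
  · intro h; split_ifs at h <;> omega

theorem V4 (p q q' : ℕ) (hq : q < 3 * p + 1) (hq' : q' < 3 * p + 1) :
    (1 ≤ Vv (p + 1) 1 (3 * p) 1 q ∧ Vv (p + 1) 1 (3 * p) 1 q ≤ 3 * p + 1) ∧
    (Vv (p + 1) 1 (3 * p) 1 q = Vv (p + 1) 1 (3 * p) 1 q' → q = q') := by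
  unfold Vv
  constructor
  · split_ifs <;> omega
  · intro h; split_ifs at h <;> omega

theorem V5 (p q q' : ℕ) (hq : q < 3 * p + 2) (hq' : q' < 3 * p + 2) :
    (1 ≤ Vv (p + 1) 1 (3 * p + 2) 2 q ∧ Vv (p + 1) 1 (3 * p + 2) 2 q ≤ 3 * p + 2) ∧
    (Vv (p + 1) 1 (3 * p + 2) 2 q = Vv (p + 1) 1 (3 * p + 2) 2 q' → q = q') := by
  unfold Vv
  constructor
  · split_ifs <;> omega
  · intro h; split_ifs at h <;> omega

theorem rr_bij (m c q q' : ℕ) (hc : c < 3) (hq : q < m) (hq' : q' < m) :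
    (1 ≤ rr m c q ∧ rr m c q ≤ m) ∧ (rr m c q = rr m c q' → q = q') := by
  obtain ⟨p, hp⟩ : ∃ p, m = 3 * p ∨ m = 3 * p + 1 ∨ m = 3 * p + 2 := ⟨m / 3, by omega⟩
  rcases hp with hp | hp | hp
  · have e1 : m % 3 = 0 := by omega
    have e2 : m / 3 = p := by omega
    unfold rr
    rw [if_pos e1, if_pos e1, e2, hp]
    rw [hp] at hq hq'
    interval_cases c
    · simpa using V1 p q q' hq hq'
    · have := V2 p (wr (3 * p) (q + p)) (wr (3 * p) (q' + p)) (wr_lt _ _ (by omega))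
        (wr_lt _ _ (by omega))
      simp only [one_ne_zero, if_false, if_true]
      exact ⟨this.1, fun h => wr_inj _ _ _ _ (by omega) hq hq' (this.2 h)⟩
    · have := V3 p (wr (3 * p) (q + 2 * p)) (wr (3 * p) (q' + 2 * p)) (wr_lt _ _ (by omega))
        (wr_lt _ _ (by omega))
      simp only [OfNat.ofNat_ne_zero, OfNat.ofNat_ne_one, if_false]
      exact ⟨this.1, fun h => wr_inj _ _ _ _ (by omega) hq hq' (this.2 h)⟩
  · have e0 : ¬ m % 3 = 0 := by omega
    have e1 : m % 3 = 1 := by omega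
    have e2 : m / 3 = p := by omega
    have e3 : m - 1 = 3 * p := by omega
    unfold rr
    rw [if_neg e0, if_neg e0, if_pos e1, if_pos e1, e2, e3, hp]
    rw [hp] at hq hq'
    interval_cases c
    · simpa using V4 p q q' hq hq'
    · have := V4 p (wr (3 * p + 1) (q + 2 * p + 1)) (wr (3 * p + 1) (q' + 2 * p + 1))
        (wr_lt _ _ (by omega)) (wr_lt _ _ (by omega))
      simp only [one_ne_zero, if_false, if_true]
      exact ⟨this.1, fun h => wr_inj (3 * p + 1) (2 * p + 1) _ _ (by omega) hq hq' (this.2 h)⟩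
    · have := V4 p (wr (3 * p + 1) (q + p + 1)) (wr (3 * p + 1) (q' + p + 1))
        (wr_lt _ _ (by omega)) (wr_lt _ _ (by omega))
      simp only [OfNat.ofNat_ne_zero, OfNat.ofNat_ne_one, if_false]
      exact ⟨this.1, fun h => wr_inj (3 * p + 1) (p + 1) _ _ (by omega) hq hq' (this.2 h)⟩
  · have e0 : ¬ m % 3 = 0 := by omega
    have e1 : ¬ m % 3 = 1 := by omega
    have e2 : m / 3 = p := by omega
    unfold rr
    rw [if_neg e0, if_neg e0, if_neg e1, if_neg e1, e2, hp]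
    rw [hp] at hq hq'
    interval_cases c
    · simpa using V5 p q q' hq hq'
    · have := V5 p (wr (3 * p + 2) (q + p + 1)) (wr (3 * p + 2) (q' + p + 1))
        (wr_lt _ _ (by omega)) (wr_lt _ _ (by omega))
      simp only [one_ne_zero, if_false, if_true]
      exact ⟨this.1, fun h => wr_inj (3 * p + 2) (p + 1) _ _ (by omega) hq hq' (this.2 h)⟩
    · have := V5 p (wr (3 * p + 2) (q + 2 * p + 2)) (wr (3 * p + 2) (q' + 2 * p + 2))
        (wr_lt _ _ (by omega)) (wr_lt _ _ (by omega))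
      simp only [OfNat.ofNat_ne_zero, OfNat.ofNat_ne_one, if_false]
      exact ⟨this.1, fun h => wr_inj (3 * p + 2) (2 * p + 2) _ _ (by omega) hq hq' (this.2 h)⟩

/-- the window -/
def Wn (m S : ℕ) : Prop :=
  3 * (m + 1) ≤ 2 * S + (if m % 2 = 0 then 3 else 4) ∧
    2 * S ≤ 3 * (m + 1) + (if m % 2 = 0 then 3 else 4)

theorem Vv_cases (nu st D e q : ℕ) :
    (q < nu ∧ Vv nu st D e q = st + 3 * q) ∨
    (∃ r, nu ≤ q ∧ q = nu + 2 * r ∧ Vv nu st D e q = D - 3 * r) ∨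
    (∃ r, nu ≤ q ∧ q = nu + 2 * r + 1 ∧ Vv nu st D e q = D - 3 * r - e) := by
  by_cases h : q < nu
  · exact Or.inl ⟨h, by unfold Vv; rw [if_pos h]⟩
  · have h2 : (q - nu) % 2 = 0 ∨ (q - nu) % 2 = 1 := by omega
    rcases h2 with h2 | h2
    · refine Or.inr (Or.inl ⟨(q - nu) / 2, by omega, by omega, ?_⟩)
      unfold Vv; rw [if_neg h, if_pos h2]; rfl
    · refine Or.inr (Or.inr ⟨(q - nu) / 2, by omega, by omega, ?_⟩)
      unfold Vv; rw [if_neg h, if_neg (by omega)]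

theorem wr_cases (m a : ℕ) : (a < m ∧ wr m a = a) ∨ (m ≤ a ∧ wr m a = a - m) := by
  unfold wr; split_ifs <;> omega

end Pool.Agent.K1H13.CY
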